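import Pool.Agent.Helper85_Pack.Core

/-!
Modules F1 and F2.
-/

namespace Pool.Agent.Helper85_Pack

open Pool.Agent.Helper2_Pack MeasureTheory

theorem exists_fr {a : ℂ} {g : Motion} (h : NearCell (1 / 256) a g) : ∃ k : ℕ, ∃ f : Fr,
    (∀ x y : ℝ, (starRingEnd ℂ g.u) * (a + ⟨x, y⟩ - g.v)
      = ⟨(fk k (f.X x y) (f.Y x y)).1, (fk k (f.X x y) (f.Y x y)).2⟩) ∧
    (k = 0 → g.u = ⟨f.u1, f.u2⟩ ∧ g.v = a + ⟨f.v1, f.v2⟩) := by
  obtain ⟨h1, h2, k, hk, h3⟩ := h
  have hu : g.u.re ^ 2 + g.u.im ^ 2 = 1 := by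
    have h4 : ‖g.u‖ ^ 2 = 1 := by rw [g.unit]; norm_num
    rw [Complex.sq_norm, Complex.normSq_apply] at h4
    linarith only [h4]
  have hre := (Complex.abs_re_le_norm (g.u - Complex.I ^ k)).trans h3
  have him := (Complex.abs_im_le_norm (g.u - Complex.I ^ k)).trans h3
  simp only [Motion.app, Complex.sub_re, Complex.sub_im, Complex.add_re, Complex.add_im,
    Complex.mul_re, Complex.mul_im] at h1 h2
  have hI3 : Complex.I ^ 3 = -Complex.I := by
    rw [pow_succ, Complex.I_sq]; ring
  have hk' : k = 0 ∨ k = 1 ∨ k = 2 ∨ k = 3 := by omega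
  rcases hk' with rfl | rfl | rfl | rfl
  · simp only [pow_zero, Complex.sub_re, Complex.sub_im, Complex.one_re, Complex.one_im,
      sub_zero] at hre him
    refine ⟨0, ⟨g.u.re, g.u.im, g.v.re - a.re, g.v.im - a.im, hu, hre, him, ?_, ?_⟩, ?_, ?_⟩
    · convert h1 using 2; ring
    · convert h2 using 2; ring
    · intro x y
      apply Complex.ext
      · simp [fk, Fr.X]; ring
      · simp [fk, Fr.Y]; ring
    · intro _
      exact ⟨rfl, by apply Complex.ext <;> simp⟩
  · simp only [pow_one, Complex.sub_re, Complex.sub_im, Complex.I_re, Complex.I_im,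
      sub_zero] at hre him
    refine ⟨1, ⟨g.u.im, -g.u.re, g.v.re - a.re - g.u.im, g.v.im - a.im + g.u.re, ?_, him, ?_, ?_,
      ?_⟩, ?_, ?_⟩
    · linarith only [hu]
    · rw [abs_neg]; exact hre
    · convert h1 using 2; ring
    · convert h2 using 2; ring
    · intro x y
      apply Complex.ext
      · simp [fk, Fr.Y]; ring
      · simp [fk, Fr.X]
        linear_combination hu
    · intro h; omega
  · simp only [Complex.I_sq, Complex.sub_re, Complex.sub_im, Complex.neg_re, Complex.neg_im,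
      Complex.one_re, Complex.one_im, neg_zero, sub_zero] at hre him
    refine ⟨2, ⟨-g.u.re, -g.u.im, g.v.re - a.re + g.u.re - g.u.im,
      g.v.im - a.im + g.u.re + g.u.im, ?_, ?_, ?_, ?_, ?_⟩, ?_, ?_⟩
    · linarith only [hu]
    · rw [← abs_neg]
      have e : -(-g.u.re - 1) = g.u.re - -1 := by ring
      rw [e]; exact hre
    · rw [abs_neg]; exact him
    · convert h1 using 2; ring
    · convert h2 using 2; ring
    · intro x y
      apply Complex.ext
      · simp [fk, Fr.X]
        linear_combination hu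
      · simp [fk, Fr.Y]
        linear_combination hu
    · intro h; omega
  · simp only [hI3, Complex.sub_re, Complex.sub_im, Complex.neg_re, Complex.neg_im,
      Complex.I_re, Complex.I_im, neg_zero, sub_zero] at hre him
    refine ⟨3, ⟨-g.u.im, g.u.re, g.v.re - a.re + g.u.re, g.v.im - a.im + g.u.im, ?_, ?_, hre, ?_,
      ?_⟩, ?_, ?_⟩
    · linarith only [hu]
    · rw [← abs_neg]
      have e : -(-g.u.im - 1) = g.u.im - -1 := by ring
      rw [e]; exact him
    · convert h1 using 2; ring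
    · convert h2 using 2; ring
    · intro x y
      apply Complex.ext
      · simp [fk, Fr.Y]
        linear_combination hu
      · simp [fk, Fr.X]; ring
    · intro h; omega

/-- the base level of a shape -/
noncomputable def sb (q : ℝ) : Shp → ℝ
  | .tile t => t.base q
  | .lever _ => q ^ 3

/-- the dents of a shape -/
noncomputable def sd : Shp → List ℝ
  | .tile t => t.bot.marks.map fun p : ℕ => (p : ℝ) / 32
  | .lever σ => levD σ

/-- the precise dents -/
noncomputable def st : Shp → List ℝ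
  | .tile _ => [14 / 32]
  | .lever _ => [10 / 32, 30 / 32]

theorem shp_SF {q : ℝ} (hq0 : 0 < q) (hq1 : q ≤ 1 / 2 ^ 20) (s : Shp) :
    SF q (s.sh q) (sb q s) (sd s) (st s) := by
  cases s with
  | tile t => exact tile_SF hq0 hq1 t
  | lever σ => exact lever_SF hq0 hq1 σ

section

variable (hS1 : S1Stmt) (hS2 : S2Stmt) (hS3 : S3Stmt)
include hS1 hS2 hS3

omit hS1 hS3 in
theorem mem_img {q : ℝ} {g : Motion} {s : Shp} {z : ℂ} {X Y : ℝ} {k : ℕ}
    (h : (starRingEnd ℂ g.u) * (z - g.v) = ⟨(fk k X Y).1, (fk k X Y).2⟩) :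
    z ∈ img q g s ↔ InR (s.sh q) k X Y := by
  unfold img
  rw [(hS2 g (s.reg q)).2.2.2.2 z, h]
  rfl

theorem mem_int {q : ℝ} (hq0 : 0 < q) (hq1 : q ≤ 1 / 2 ^ 20) {g : Motion} {s : Shp} {z : ℂ}
    {X Y : ℝ} {k : ℕ} (h : (starRingEnd ℂ g.u) * (z - g.v) = ⟨(fk k X Y).1, (fk k X Y).2⟩) :
    z ∈ interior (img q g s) ↔ InI (s.sh q) k X Y := by
  have hg := (hS3 q s hq0 (by norm_num at hq1 ⊢; linarith only [hq1])).1
  have h1 : interior (img q g s) = g.app '' interior (s.reg q) := (hS2 g (s.reg q)).1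
  rw [h1, (hS2 g (interior (s.reg q))).2.2.2.2 z, h]
  unfold Shp.reg
  rw [(hS1 _ hg).1]
  rfl

omit hS1 hS2 hS3 in
theorem volume_rect (x1 x2 y1 y2 : ℝ) (h1 : x1 ≤ x2) :
    volume {z : ℂ | x1 < z.re ∧ z.re < x2 ∧ y1 < z.im ∧ z.im < y2}
      = ENNReal.ofReal ((x2 - x1) * (y2 - y1)) := by
  have e : {z : ℂ | x1 < z.re ∧ z.re < x2 ∧ y1 < z.im ∧ z.im < y2}
      = Complex.measurableEquivRealProd ⁻¹' (Set.Ioo x1 x2 ×ˢ Set.Ioo y1 y2) := by
    ext z
    simp only [Set.mem_ofPred_eq, Set.mem_preimage, Complex.measurableEquivRealProd_apply,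
      Set.mem_prod, Set.mem_Ioo]
    tauto
  rw [e, Complex.volume_preserving_equiv_real_prod.measure_preimage
    (measurableSet_Ioo.prod measurableSet_Ioo).nullMeasurableSet, Measure.volume_eq_prod,
    Measure.prod_prod, Real.volume_Ioo, Real.volume_Ioo, ENNReal.ofReal_mul (by linarith)]

omit hS1 hS2 hS3 in
theorem norm_mk_le (x y : ℝ) : ‖(⟨x, y⟩ : ℂ)‖ ≤ |x| + |y| :=
  Complex.norm_le_abs_re_add_abs_im ⟨x, y⟩

omit hS1 hS2 hS3 in
theorem col_eq {a b : Col} (h1 : ∀ p ∈ a.marks, p ∈ b.marks) (h2 : ∀ p ∈ b.marks, p ∈ a.marks) :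
    a = b := by
  cases a <;> cases b <;> simp [Col.marks] at h1 h2 <;> rfl

omit hS1 hS2 hS3 in
theorem dist_marks {p p' : ℕ} (h : p ≠ p') : 1 / 32 ≤ |(p : ℝ) / 32 - (p' : ℝ) / 32| := by
  have e : (p : ℝ) / 32 - (p' : ℝ) / 32 = ((p : ℝ) - p') / 32 := by ring
  rw [e, abs_div, abs_of_pos (by norm_num : (0 : ℝ) < 32)]
  apply div_le_div_of_nonneg_right _ (by norm_num)
  have h1 : (1 : ℤ) ≤ |(p : ℤ) - p'| := by
    apply Int.one_le_abs
    omega
  have h2 : ((1 : ℤ) : ℝ) ≤ ((|(p : ℤ) - p'| : ℤ) : ℝ) := by exact_mod_cast h1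
  push_cast at h2
  exact h2

theorem f1 : F1Stmt := by
  intro q ω a s h hq0 hq1 hω0 hω1 hN hi hii
  have hsm : q ≤ 1 / 1048576 := by norm_num at hq1 ⊢; exact hq1
  obtain ⟨k, f, hfr, hk0⟩ := exists_fr hN
  have hSF := shp_SF hq0 hq1 s
  set L : List ℝ := a.marks.map fun p : ℕ => (p : ℝ) / 32 with hL
  have hLmem : ∀ p : ℕ, p ∈ a.marks → (p : ℝ) / 32 ∈ L := by
    intro p hp
    rw [hL]
    exact List.mem_map_of_mem (f := fun p : ℕ => (p : ℝ) / 32) hp
  have hnot : ∀ x y : ℝ, Complex.I + ⟨x, y⟩ ∉ interior (img q h s) →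
      ¬ InI (s.sh q) k (f.X x y) (f.Y x y) := by
    intro x y hz hin
    exact hz ((mem_int hS1 hS2 hS3 hq0 hq1 (hfr x y)).2 hin)
  have hre : ∀ x y : ℝ, (Complex.I + ⟨x, y⟩ : ℂ).re = x := by intro x y; simp
  have him : ∀ x y : ℝ, (Complex.I + ⟨x, y⟩ : ℂ).im = 1 + y := by intro x y; simp
  have E : Env q 0 ω L f (s.sh q) k := by
    refine ⟨?_, ?_, ?_, ?_⟩
    · intro x y hx hy1 hy2
      apply hnot
      apply hi
      · rw [hre]; rcases hx with hx | hx <;> linarith only [hx.1]
      · rw [hre]; rcases hx with hx | hx <;> linarith only [hx.2]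
      · rw [him]; linarith
      · rw [hre, him]
        have := le_tents 1 x (a.marks.map fun p : ℕ => ((p : ℝ) / 32, 1 + q))
        unfold topF
        linarith only [hy2, this]
    · intro p hp
      refine ⟨p, q, by simp, by simp, hnot _ _ ?_⟩
      intro hz
      rw [hL, List.mem_map] at hp
      obtain ⟨p, hp, rfl⟩ := hp
      obtain ⟨r, hr, hball⟩ := Metric.isOpen_iff.1 isOpen_interior _ hz
      set δ := min (r / 2) (q / 2) with hδ
      have hδ0 : 0 < δ := lt_min (by linarith) (by linarith)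
      have hδr : δ < r := (min_le_left _ _).trans_lt (by linarith)
      have hδq : δ ≤ q / 2 := min_le_right _ _
      have hpb : 10 / 32 ≤ (p : ℝ) / 32 ∧ (p : ℝ) / 32 ≤ 29 / 32 := by
        rcases marks_mem hp with rfl | rfl | rfl | rfl | rfl <;> norm_num
      apply hi (Complex.I + ⟨(p : ℝ) / 32, q - δ⟩)
      · rw [hre]; linarith only [hpb.1]
      · rw [hre]; linarith only [hpb.2]
      · rw [him]; linarith only [hδ0, hδq]
      · rw [hre, him]
        have := tent_le_tents 1 ((p : ℝ) / 32) (L := a.marks.map fun p : ℕ => ((p : ℝ) / 32, 1 + q))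
          (d := ((p : ℝ) / 32, 1 + q)) (List.mem_map_of_mem (f := fun p : ℕ => ((p : ℝ) / 32, 1 + q)) hp)
        simp only [sub_self, abs_zero, sub_zero] at this
        unfold topF
        linarith only [hδ0, this]
      · apply hball
        rw [Metric.mem_ball, Complex.dist_eq]
        have e : (Complex.I + ⟨(p : ℝ) / 32, q - δ⟩ - (Complex.I + ⟨(p : ℝ) / 32, q⟩) : ℂ)
            = ⟨0, -δ⟩ := by apply Complex.ext <;> simp
        rw [e]
        refine (norm_mk_le _ _).trans_lt ?_
        rw [abs_zero, zero_add, abs_neg, abs_of_pos hδ0]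
        exact hδr
    · intro x1 x2 y1 y2 hx1 hx12 hx2 hy1 hy12 hy2 hfar hno
      have hsub : {z : ℂ | x1 < z.re ∧ z.re < x2 ∧ 1 + y1 < z.im ∧ z.im < 1 + y2} ⊆
          {z : ℂ | 1 / 16 < z.re ∧ z.re < 15 / 16 ∧ topF q a z.re < z.im ∧ z.im < 3 / 2} \
            img q h s := by
        rintro z ⟨z1, z2, z3, z4⟩
        have hz : z = Complex.I + ⟨z.re, z.im - 1⟩ := by apply Complex.ext <;> simp
        refine ⟨⟨by linarith only [hx1, z1], by linarith only [hx2, z2], ?_, by linarith only [hy2, z4]⟩, ?_⟩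
        · have : topF q a z.re ≤ 1 := by
            unfold topF
            apply tents_le le_rfl
            intro d hd
            rw [List.mem_map] at hd
            obtain ⟨p, hp, rfl⟩ := hd
            have := hfar _ (hLmem p hp) z.re z1 z2
            simp only
            linarith only [hq0, this]
          linarith only [hy1, z3, this]
        · intro hzi
          have := hfr z.re (z.im - 1)
          rw [← hz] at this
          rw [mem_img hS2 this] at hzi
          exact hno z.re (z.im - 1) z1 z2 (by linarith only [z3]) (by linarith only [z4]) hzi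
      have hvol := (measure_mono hsub).trans hii
      rw [volume_rect _ _ _ _ hx12.le] at hvol
      rw [ENNReal.ofReal_le_ofReal_iff hω0] at hvol
      have e : (x2 - x1) * (1 + y2 - (1 + y1)) = (x2 - x1) * (y2 - y1) := by ring
      rwa [e] at hvol
    · intro p hp
      rw [hL, List.mem_map] at hp
      obtain ⟨p, hp, rfl⟩ := hp
      simp only [le_abs]
      rcases marks_mem hp with rfl | rfl | rfl | rfl | rfl <;> norm_num
  have hε1 : (0 : ℝ) ≤ 8 * q ^ 2 := by positivity
  have h14 : (14 / 32 : ℝ) ∈ L := by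
    have h1 : 14 ∈ a.marks := by cases a <;> simp [Col.marks]
    have := hLmem 14 h1
    norm_num at this ⊢
    exact this
  have hk : k = 0 := by
    by_contra hk
    refine r1 hSF hq0 hq1 le_rfl hε1 hω0 hω1 E h14 hk ?_
    rw [le_abs]; left; norm_num
  have h1420 : (1 / 32 : ℝ) ≤ |14 / 32 - 20 / 32| := by rw [le_abs]; right; norm_num
  cases s with
  | lever σ =>
    exfalso
    refine r2 hSF hq0 hq1 le_rfl hε1 hω0 hω1 E h14 hk h1420 ?_
    intro p' hp'
    have hp'' : p' = 10 / 32 ∨ p' = 13 / 32 ∨ p' = 26 / 32 ∨ p' = 30 / 32 := by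
      cases σ <;> simp only [sd, levD, List.mem_cons, List.not_mem_nil, or_false] at hp' <;> tauto
    rw [le_abs]
    rcases hp'' with rfl | rfl | rfl | rfl <;> norm_num
  | tile t =>
    refine ⟨t, rfl, ?_, ?_, ?_⟩
    · apply col_eq
      · intro p' hp'
        by_contra hcon
        have hb : 1 / 8 ≤ (p' : ℝ) / 32 ∧ (p' : ℝ) / 32 ≤ 29 / 32 := by
          rcases marks_mem hp' with rfl | rfl | rfl | rfl | rfl <;> norm_num
        refine r3 hSF hq0 hq1 le_rfl hε1 hω0 hω1 E (p' := (p' : ℝ) / 32)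
          (List.mem_map_of_mem (f := fun p : ℕ => (p : ℝ) / 32) hp') hk hb.1 hb.2 ?_
        intro p hp
        rw [hL, List.mem_map] at hp
        obtain ⟨p, hp, rfl⟩ := hp
        have := dist_marks (p := p) (p' := p') (by rintro rfl; exact hcon hp)
        linarith only [this]
      · intro p hp
        by_contra hcon
        refine r2 hSF hq0 hq1 le_rfl hε1 hω0 hω1 E (hLmem p hp) hk ?_ ?_
        · rw [le_abs]
          rcases marks_mem hp with rfl | rfl | rfl | rfl | rfl <;> norm_num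
        · intro p' hp'
          simp only [sd, List.mem_map] at hp'
          obtain ⟨p', hp', rfl⟩ := hp'
          exact dist_marks (by rintro rfl; exact hcon hp')
    · obtain ⟨hu, -⟩ := hk0 hk
      have h2 := u2_le hSF hq0 hq1 le_rfl hε1 hω0 hω1 E
      have h3 := f.one_sub
      have h4 := f.u1_le
      have h5 : f.u2 ^ 2 ≤ |f.u2| := by
        rw [← sq_abs]
        have := f.h2
        nlinarith only [this, abs_nonneg f.u2]
      have e : h.u - 1 = ⟨f.u1 - 1, f.u2⟩ := by rw [hu]; apply Complex.ext <;> simp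
      rw [e]
      refine (norm_mk_le _ _).trans ?_
      rw [abs_sub_comm, abs_of_nonneg (by linarith)]
      linarith only [hω0, h2, h3, h5]
    · obtain ⟨-, hv⟩ := hk0 hk
      obtain ⟨h2, h3⟩ := r4 hSF hq0 hq1 le_rfl hε1 hω0 hω1 E h14 hk (by simp [st]) h1420
      have e : h.v - Complex.I = ⟨f.v1, f.v2⟩ := by rw [hv]; ring
      rw [e]
      refine (norm_mk_le _ _).trans ?_
      have : 0 ≤ q ^ 3 := by positivity
      linarith only [hω0, h2, h3, this]

end

end Pool.Agent.Helper85_Pack
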