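import Pool.Agent.Helper85_Pack.Place

/-!
Module F2: a piece in the room of a lever.
-/

namespace Pool.Agent.Helper85_Pack

open Pool.Agent.Helper2_Pack MeasureTheory

/-- frame coordinates of a motion near a translation -/
theorem near_frame {g : Motion} {c z : ℂ} {d : ℝ} (hd : d ≤ 1 / 4) (hu : ‖g.u - 1‖ ≤ d)
    (hv : ‖g.v - c‖ ≤ d) (hz : ‖z - c‖ ≤ 3) :
    ‖(starRingEnd ℂ g.u) * (z - g.v) - (z - c)‖ ≤ 5 * d := by
  have hd0 : 0 ≤ d := (norm_nonneg _).trans hu
  have e : (starRingEnd ℂ g.u) * (z - g.v) - (z - c)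
      = (starRingEnd ℂ (g.u - 1)) * (z - g.v) + -(g.v - c) := by
    rw [map_sub, map_one]; ring
  rw [e]
  refine (norm_add_le _ _).trans ?_
  rw [norm_mul, Complex.norm_conj, norm_neg]
  have h1 : ‖z - g.v‖ ≤ 3 + d := by
    have e2 : z - g.v = (z - c) + -(g.v - c) := by ring
    rw [e2]
    refine (norm_add_le _ _).trans ?_
    rw [norm_neg]
    linarith
  have h2 : ‖g.u - 1‖ * ‖z - g.v‖ ≤ d * (3 + d) :=
    mul_le_mul hu h1 (norm_nonneg _) hd0
  nlinarith only [hv, hd0, h2, hd]

section

variable (hS1 : S1Stmt) (hS2 : S2Stmt) (hS3 : S3Stmt)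
include hS1 hS2 hS3

/-- a point under the flat part of the top of a tile -/
theorem mem_tile_int {q : ℝ} (hq0 : 0 < q) (hq1 : q ≤ 1 / 2 ^ 20) {g : Motion} {t : Tile} {z : ℂ}
    {w : ℂ} (h : (starRingEnd ℂ g.u) * (z - g.v) = w) (hX0 : 1 / 64 ≤ w.re) (hX1 : w.re ≤ 63 / 64)
    (hX2 : 1 / 64 ≤ |w.re - 20 / 32|) (hY0 : 1 / 64 < w.im) (hY1 : w.im < 1) :
    z ∈ interior (img q g (.tile t)) := by
  have hSF := shp_SF hq0 hq1 (.tile t)
  have hsm : q ≤ 1 / 1048576 := by norm_num at hq1 ⊢; exact hq1
  have := hSF.xl0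
  have := hSF.xl1
  have := hSF.xr0
  rw [mem_int hS1 hS2 hS3 hq0 hq1 (k := 0) (X := w.re) (Y := w.im) h]
  have h1 := hSF.lo_le w.re (by linarith) (by linarith)
  have h2 := hSF.hi_ge1 w.re hX0 hX1 hX2
  simp only [InI, fk]
  exact ⟨by linarith, by linarith only [hX1, this], by linarith, by linarith only [hY1, h2]⟩

/-- the apex of a bump of a tile is not in the interior of another piece -/
theorem apex_not_mem {q : ℝ} (hq0 : 0 < q) (hq1 : q ≤ 1 / 2 ^ 20) {g h : Motion} {t : Tile}
    {s : Shp} (hdis : Disjoint (interior (img q g (.tile t))) (interior (img q h s))) {p : ℕ}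
    (hp : p ∈ t.top.marks) : g.app ⟨(p : ℝ) / 32, 1 + q⟩ ∉ interior (img q h s) := by
  intro hz
  have hsm : q ≤ 1 / 1048576 := by norm_num at hq1 ⊢; exact hq1
  have hq3 := q3_le hq0 hq1
  have hq30 : 0 < q ^ 3 := by positivity
  have hSF := tile_SF hq0 hq1 t
  have hpb : 10 / 32 ≤ (p : ℝ) / 32 ∧ (p : ℝ) / 32 ≤ 29 / 32 := by
    rcases marks_mem hp with rfl | rfl | rfl | rfl | rfl <;> norm_num
  have hreg : (⟨(p : ℝ) / 32, 1 + q⟩ : ℂ) ∈ (Shp.tile t).reg q := by
    have := hSF.xl0
    have := hSF.xl1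
    have := hSF.xr0
    refine ⟨?_, ?_, ?_, ?_⟩
    · change (t.sh q).xl ≤ (p : ℝ) / 32; linarith
    · change (p : ℝ) / 32 ≤ (t.sh q).xr; linarith only [hpb, this]
    · change (t.sh q).lo ((p : ℝ) / 32) ≤ 1 + q
      have := hSF.lo_le ((p : ℝ) / 32) (by linarith) (by linarith)
      linarith only [hq3, hq30, this]
    · change 1 + q ≤ (t.sh q).hi ((p : ℝ) / 32)
      have h1 : (t.sh q).hi ((p : ℝ) / 32)
          = tents 1 (t.top.marks.map fun p : ℕ => ((p : ℝ) / 32, 1 + q)) ((p : ℝ) / 32)
            - cham q (t.xl q) ((p : ℝ) / 32) := rfl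
      have hxl1 : t.xl q ≤ q := by unfold Tile.xl; split_ifs <;> linarith only [hq3, hq30]
      rw [h1, cham_eq (by linarith) (by linarith)]
      have := tent_le_tents 1 ((p : ℝ) / 32)
        (L := t.top.marks.map fun p : ℕ => ((p : ℝ) / 32, 1 + q))
        (d := ((p : ℝ) / 32, 1 + q)) (List.mem_map_of_mem (f := fun p : ℕ => ((p : ℝ) / 32, 1 + q)) hp)
      simp only [sub_self, abs_zero, sub_zero] at this
      linarith only [this]
  have hgood := (hS3 q (.tile t) hq0 (by norm_num at hq1 ⊢; linarith only [hsm])).1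
  have hcl : (⟨(p : ℝ) / 32, 1 + q⟩ : ℂ) ∈ closure (interior ((Shp.tile t).reg q)) :=
    (hS1 _ hgood).2.1 hreg
  have hcl2 : g.app ⟨(p : ℝ) / 32, 1 + q⟩ ∈ closure (interior (img q g (.tile t))) := by
    have h1 : interior (img q g (.tile t)) = g.app '' interior ((Shp.tile t).reg q) :=
      (hS2 g _).1
    rw [h1, (hS2 g (interior ((Shp.tile t).reg q))).2.1]
    exact ⟨_, hcl, rfl⟩
  obtain ⟨z, hz1, hz2⟩ := mem_closure_iff.1 hcl2 _ isOpen_interior hz
  exact Set.disjoint_left.1 hdis hz2 hz1

omit hS1 hS3 in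
/-- a point above the top of a tile -/
theorem not_mem_tile {q : ℝ} {g : Motion} {t : Tile} {z : ℂ}
    {w : ℂ} (h : (starRingEnd ℂ g.u) * (z - g.v) = w)
    (hfar : ∀ p ∈ t.top.marks, q ≤ |w.re - (p : ℝ) / 32|) (hY : 1 < w.im) :
    z ∉ img q g (.tile t) := by
  rw [mem_img hS2 (k := 0) (X := w.re) (Y := w.im) h]
  intro hr
  simp only [InR, fk] at hr
  have h1 : ((Shp.tile t).sh q).hi w.re
      = tents 1 (t.top.marks.map fun p : ℕ => ((p : ℝ) / 32, 1 + q)) w.re
        - cham q (t.xl q) w.re := rfl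
  have h2 := cham_nonneg q (t.xl q) w.re
  have h3 : tents 1 (t.top.marks.map fun p : ℕ => ((p : ℝ) / 32, 1 + q)) w.re ≤ 1 := by
    apply tents_le le_rfl
    intro d hdd
    rw [List.mem_map] at hdd
    obtain ⟨p, hp, rfl⟩ := hdd
    have := hfar p hp
    simp only
    linarith
  linarith [hr.2.2.2]

theorem f2 : F2Stmt := by
  intro q ω σ t₁ t₂ g₁ g₂ s h hq0 hq1 hω0 hω1 hm1 hm2 hg1u hg1v hg2u hg2v hN hd1 hd2 hvol
  have hsm : q ≤ 1 / 1048576 := by norm_num at hq1 ⊢; exact hq1
  have hq2 := q2_le hq0 hq1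
  have hq3 := q3_le hq0 hq1
  have hq20 : 0 < q ^ 2 := by positivity
  obtain ⟨k, f, hfr, hk0⟩ := exists_fr hN
  have hSF := shp_SF hq0 hq1 s
  have hre : ∀ x y : ℝ, ((0 : ℂ) + ⟨x, y⟩ : ℂ).re = x := by intro x y; simp
  have him : ∀ x y : ℝ, ((0 : ℂ) + ⟨x, y⟩ : ℂ).im = y := by intro x y; simp
  -- the bumps
  set L1 : List ℝ := (t₁.top.marks.filter (fun p : ℕ => 16 < p)).map
    (fun p : ℕ => (p : ℝ) / 32 - 1 / 2) with hL1
  set L2 : List ℝ := (t₂.top.marks.filter (fun p : ℕ => p < 16)).map
    (fun p : ℕ => (p : ℝ) / 32 + 1 / 2) with hL2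
  set L : List ℝ := L1 ++ L2 with hL
  have memL1 : ∀ p : ℕ, p ∈ t₁.top.marks → 16 < p → (p : ℝ) / 32 - 1 / 2 ∈ L := by
    intro p hp hp16
    exact List.mem_append.2 (Or.inl (List.mem_map.2
      ⟨p, List.mem_filter.2 ⟨hp, by simpa using hp16⟩, rfl⟩))
  have memL2 : ∀ p : ℕ, p ∈ t₂.top.marks → p < 16 → (p : ℝ) / 32 + 1 / 2 ∈ L := by
    intro p hp hp16
    exact List.mem_append.2 (Or.inr (List.mem_map.2
      ⟨p, List.mem_filter.2 ⟨hp, by simpa using hp16⟩, rfl⟩))
  have casesL : ∀ r ∈ L, (∃ p : ℕ, p ∈ t₁.top.marks ∧ 16 < p ∧ r = (p : ℝ) / 32 - 1 / 2) ∨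
      (∃ p : ℕ, p ∈ t₂.top.marks ∧ p < 16 ∧ r = (p : ℝ) / 32 + 1 / 2) := by
    intro r hr
    rw [hL, List.mem_append, hL1, hL2, List.mem_map, List.mem_map] at hr
    rcases hr with ⟨p, hp, rfl⟩ | ⟨p, hp, rfl⟩
    · left
      rw [List.mem_filter] at hp
      exact ⟨p, hp.1, by simpa using hp.2, rfl⟩
    · right
      rw [List.mem_filter] at hp
      exact ⟨p, hp.1, by simpa using hp.2, rfl⟩
  -- frames of the two tiles
  have fr1 : ∀ z : ℂ, 0 ≤ z.re → z.re ≤ 1 → |z.im| ≤ 1 / 8 →
      |((starRingEnd ℂ g₁.u) * (z - g₁.v)).re - (z.re + 1 / 2)| ≤ 5 * q ^ 2 ∧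
      |((starRingEnd ℂ g₁.u) * (z - g₁.v)).im - (z.im + 1)| ≤ 5 * q ^ 2 := by
    intro z hz0 hz1 hz2
    have hz2' := abs_le.1 hz2
    have e : z - ⟨-1 / 2, -1⟩ = ⟨z.re + 1 / 2, z.im + 1⟩ := by
      apply Complex.ext
      · simp; ring
      · simp
    have hn : ‖z - ⟨-1 / 2, -1⟩‖ ≤ 3 := by
      rw [e]
      refine (norm_mk_le _ _).trans ?_
      rw [abs_of_nonneg (by linarith only [hz0]), abs_of_nonneg (by linarith only [hz2'])]
      linarith only [hz1, hz2']
    have hh := near_frame (by linarith only [hq1, hq2]) hg1u hg1v hn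
    rw [e] at hh
    exact ⟨(Complex.abs_re_le_norm _).trans hh, (Complex.abs_im_le_norm _).trans hh⟩
  have fr2 : ∀ z : ℂ, 0 ≤ z.re → z.re ≤ 1 → |z.im| ≤ 1 / 8 →
      |((starRingEnd ℂ g₂.u) * (z - g₂.v)).re - (z.re - 1 / 2)| ≤ 5 * q ^ 2 ∧
      |((starRingEnd ℂ g₂.u) * (z - g₂.v)).im - (z.im + 1)| ≤ 5 * q ^ 2 := by
    intro z hz0 hz1 hz2
    have hz2' := abs_le.1 hz2
    have e : z - ⟨1 / 2, -1⟩ = ⟨z.re - 1 / 2, z.im + 1⟩ := by
      apply Complex.ext
      · simp
      · simp
    have hn : ‖z - ⟨1 / 2, -1⟩‖ ≤ 3 := by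
      rw [e]
      refine (norm_mk_le _ _).trans ?_
      have h1 : |z.re - 1 / 2| ≤ 1 / 2 := by rw [abs_le]; constructor <;> linarith only [hz0, hz1]
      rw [abs_of_nonneg (by linarith only [hz2'] : 0 ≤ z.im + 1)]
      linarith only [hz2', h1]
    have hh := near_frame (by linarith only [hq1, hq2]) hg2u hg2v hn
    rw [e] at hh
    exact ⟨(Complex.abs_re_le_norm _).trans hh, (Complex.abs_im_le_norm _).trans hh⟩
  have hnot : ∀ x y : ℝ, ((0 : ℂ) + ⟨x, y⟩ : ℂ) ∉ interior (img q h s) →
      ¬ InI (s.sh q) k (f.X x y) (f.Y x y) := by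
    intro x y hz hin
    exact hz ((mem_int hS1 hS2 hS3 hq0 hq1 (hfr x y)).2 hin)
  have hapex : ∀ (g : Motion) (c : ℂ) (p : ℕ), ‖g.u - 1‖ ≤ q ^ 2 → ‖g.v - c‖ ≤ q ^ 2 →
      10 ≤ p → p ≤ 29 → ‖g.app ⟨(p : ℝ) / 32, 1 + q⟩ - (⟨(p : ℝ) / 32, 1 + q⟩ + c)‖ ≤ 4 * q ^ 2 := by
    intro g c p hu hv hp1 hp2
    have e : g.app ⟨(p : ℝ) / 32, 1 + q⟩ - (⟨(p : ℝ) / 32, 1 + q⟩ + c)
        = (g.u - 1) * ⟨(p : ℝ) / 32, 1 + q⟩ + (g.v - c) := by
      unfold Motion.app; ring
    rw [e]
    refine (norm_add_le _ _).trans ?_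
    rw [norm_mul]
    have h1 : ‖(⟨(p : ℝ) / 32, 1 + q⟩ : ℂ)‖ ≤ 3 := by
      refine (norm_mk_le _ _).trans ?_
      have : (p : ℝ) ≤ 29 := by exact_mod_cast hp2
      rw [abs_of_nonneg (by positivity), abs_of_nonneg (by linarith only [hq2, hq20])]
      linarith only [hq1, this]
    have h2 := mul_le_mul hu h1 (norm_nonneg _) hq20.le
    linarith only [hv, h2]
  have E : Env q (5 * q ^ 2) ω L f (s.sh q) k := by
    refine ⟨?_, ?_, ?_, ?_⟩
    · intro x y hx hy1 hy2
      apply hnot
      have hxb : 7 / 32 < x ∧ x < 25 / 32 := by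
        rcases hx with hx | hx <;> constructor <;> linarith only [hx.1, hx.2]
      have hyb : |((0 : ℂ) + ⟨x, y⟩ : ℂ).im| ≤ 1 / 8 := by
        rw [him, abs_le]; constructor <;> linarith only [hy1, hq20, hy2]
      rcases hx with hx | hx
      · obtain ⟨a1, a2⟩ := fr1 (0 + ⟨x, y⟩) (by rw [hre]; linarith only [hxb]) (by rw [hre]; linarith only [hxb]) hyb
        rw [hre] at a1
        rw [him] at a2
        rw [abs_le] at a1 a2
        apply Set.disjoint_left.1 hd1
        apply mem_tile_int hS1 hS2 hS3 hq0 hq1 rfl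
        · linarith only [hq1, hq2, hxb, a1.1]
        · linarith only [hq1, hq2, a1.2, hx.2]
        · rw [le_abs]; left; linarith only [hq1, hq2, a1.1, hx.1]
        · linarith only [hq1, hq2, hy1, a2.1]
        · linarith only [hy2, a2.2]
      · obtain ⟨a1, a2⟩ := fr2 (0 + ⟨x, y⟩) (by rw [hre]; linarith only [hx]) (by rw [hre]; linarith only [hxb]) hyb
        rw [hre] at a1
        rw [him] at a2
        rw [abs_le] at a1 a2
        apply Set.disjoint_left.1 hd2
        apply mem_tile_int hS1 hS2 hS3 hq0 hq1 rfl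
        · linarith only [hq1, hq2, a1.1, hx.1]
        · linarith only [hq1, hq2, a1.2, hx.2]
        · rw [le_abs]; right; linarith only [hq1, hq2, a1.2, hx.2]
        · linarith only [hq1, hq2, hy1, a2.1]
        · linarith only [hy2, a2.2]
    · intro r hr
      rcases casesL r hr with ⟨p, hp, hp16, rfl⟩ | ⟨p, hp, hp16, rfl⟩
      · have hpm := marks_mem hp
        have h1 := hapex g₁ ⟨-1 / 2, -1⟩ p hg1u hg1v (by omega) (by omega)
        refine ⟨(g₁.app ⟨(p : ℝ) / 32, 1 + q⟩).re, (g₁.app ⟨(p : ℝ) / 32, 1 + q⟩).im, ?_, ?_,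
          hnot _ _ ?_⟩
        · have h2 := (Complex.abs_re_le_norm _).trans h1
          simp only [Complex.sub_re, Complex.add_re] at h2
          have e : (g₁.app ⟨(p : ℝ) / 32, 1 + q⟩).re - ((p : ℝ) / 32 - 1 / 2)
            = (g₁.app ⟨(p : ℝ) / 32, 1 + q⟩).re - ((p : ℝ) / 32 + -1 / 2) := by ring
          rw [e]
          linarith only [hq20, h2]
        · have h2 := (Complex.abs_im_le_norm _).trans h1
          simp only [Complex.sub_im, Complex.add_im] at h2
          have e : (g₁.app ⟨(p : ℝ) / 32, 1 + q⟩).im - q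
            = (g₁.app ⟨(p : ℝ) / 32, 1 + q⟩).im - (1 + q + -1) := by ring
          rw [e]
          linarith only [hq20, h2]
        · rw [zero_add]
          exact apex_not_mem hS1 hS2 hS3 hq0 hq1 hd1 hp
      · have hpm := marks_mem hp
        have h1 := hapex g₂ ⟨1 / 2, -1⟩ p hg2u hg2v (by omega) (by omega)
        refine ⟨(g₂.app ⟨(p : ℝ) / 32, 1 + q⟩).re, (g₂.app ⟨(p : ℝ) / 32, 1 + q⟩).im, ?_, ?_,
          hnot _ _ ?_⟩
        · have h2 := (Complex.abs_re_le_norm _).trans h1
          simp only [Complex.sub_re, Complex.add_re] at h2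
          linarith only [hq20, h2]
        · have h2 := (Complex.abs_im_le_norm _).trans h1
          simp only [Complex.sub_im, Complex.add_im] at h2
          have e : (g₂.app ⟨(p : ℝ) / 32, 1 + q⟩).im - q
            = (g₂.app ⟨(p : ℝ) / 32, 1 + q⟩).im - (1 + q + -1) := by ring
          rw [e]
          linarith only [hq20, h2]
        · rw [zero_add]
          exact apex_not_mem hS1 hS2 hS3 hq0 hq1 hd2 hp
    · intro x1 x2 y1 y2 hx1 hx12 hx2 hy1 hy12 hy2 hfar hno
      have hsub : {z : ℂ | x1 < z.re ∧ z.re < x2 ∧ y1 < z.im ∧ z.im < y2} ⊆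
          {z : ℂ | 1 / 16 < z.re ∧ z.re < 31 / 32 ∧ -1 / 2 < z.im ∧ z.im < 1 / 2} \
            (img q h s ∪ img q g₁ (.tile t₁) ∪ img q g₂ (.tile t₂)) := by
        rintro z ⟨z1, z2, z3, z4⟩
        have hz : z = 0 + ⟨z.re, z.im⟩ := by rw [zero_add]
        have hzi8 : |z.im| ≤ 1 / 8 := by rw [abs_le]; constructor <;> linarith only [hq20, hy1, z3, hy2, z4]
        refine ⟨⟨by linarith only [hx1, z1], by linarith only [hx2, z2], by linarith only [hq20, hy1, z3], by linarith only [hy2, z4]⟩, ?_⟩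
        rintro ((hzi | hzi) | hzi)
        · have := hfr z.re z.im
          rw [← hz] at this
          rw [mem_img hS2 this] at hzi
          exact hno z.re z.im z1 z2 (by linarith only [z3]) (by linarith only [z4]) hzi
        · revert hzi
          obtain ⟨a1, a2⟩ := fr1 z (by linarith only [hx1, z1]) (by linarith only [hx2, z2]) hzi8
          rw [abs_le] at a1 a2
          apply not_mem_tile hS2 rfl
          · intro p hp
            by_cases hp16 : 16 < p
            · have h1 := hfar _ (memL1 p hp hp16) z.re z1 z2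
              have h2 : |z.re - ((p : ℝ) / 32 - 1 / 2)|
                  ≤ |((starRingEnd ℂ g₁.u) * (z - g₁.v)).re - (p : ℝ) / 32|
                    + |(z.re + 1 / 2) - ((starRingEnd ℂ g₁.u) * (z - g₁.v)).re| := by
                have e : z.re - ((p : ℝ) / 32 - 1 / 2)
                    = (((starRingEnd ℂ g₁.u) * (z - g₁.v)).re - (p : ℝ) / 32)
                      + ((z.re + 1 / 2) - ((starRingEnd ℂ g₁.u) * (z - g₁.v)).re) := by ring
                rw [e]
                exact abs_add_le _ _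
              have h3 : |(z.re + 1 / 2) - ((starRingEnd ℂ g₁.u) * (z - g₁.v)).re| ≤ 5 * q ^ 2 := by
                rw [abs_le]; constructor <;> linarith only [a1.1, a1.2]
              linarith only [hq2, hq20, h1, h2, h3]
            · have hpm := marks_mem hp
              have hp14 : (p : ℝ) ≤ 14 := by
                have : p ≤ 14 := by omega
                exact_mod_cast this
              rw [le_abs]; left
              linarith only [hq1, hq2, hx1, z1, hp14, a1.1]
          · linarith only [hy1, z3, a2.1]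
        · revert hzi
          obtain ⟨a1, a2⟩ := fr2 z (by linarith only [hx1, z1]) (by linarith only [hx2, z2]) hzi8
          rw [abs_le] at a1 a2
          apply not_mem_tile hS2 rfl
          · intro p hp
            by_cases hp16 : p < 16
            · have h1 := hfar _ (memL2 p hp hp16) z.re z1 z2
              have h2 : |z.re - ((p : ℝ) / 32 + 1 / 2)|
                  ≤ |((starRingEnd ℂ g₂.u) * (z - g₂.v)).re - (p : ℝ) / 32|
                    + |(z.re - 1 / 2) - ((starRingEnd ℂ g₂.u) * (z - g₂.v)).re| := by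
                have e : z.re - ((p : ℝ) / 32 + 1 / 2)
                    = (((starRingEnd ℂ g₂.u) * (z - g₂.v)).re - (p : ℝ) / 32)
                      + ((z.re - 1 / 2) - ((starRingEnd ℂ g₂.u) * (z - g₂.v)).re) := by ring
                rw [e]
                exact abs_add_le _ _
              have h3 : |(z.re - 1 / 2) - ((starRingEnd ℂ g₂.u) * (z - g₂.v)).re| ≤ 5 * q ^ 2 := by
                rw [abs_le]; constructor <;> linarith only [a1.1, a1.2]
              linarith only [hq2, hq20, h1, h2, h3]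
            · have hpm := marks_mem hp
              have hp14 : (18 : ℝ) ≤ p := by
                have : 18 ≤ p := by omega
                exact_mod_cast this
              rw [le_abs]; right
              linarith only [hq1, hq2, hx2, z2, hp14, a1.2]
          · linarith only [hy1, z3, a2.1]
      have hvol' := (measure_mono hsub).trans hvol
      rw [volume_rect _ _ _ _ hx12.le] at hvol'
      rwa [ENNReal.ofReal_le_ofReal_iff hω0] at hvol'
    · intro r hr
      simp only [le_abs]
      rcases casesL r hr with ⟨p, hp, hp16, rfl⟩ | ⟨p, hp, hp16, rfl⟩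
      · rcases marks_mem hp with rfl | rfl | rfl | rfl | rfl
        · omega
        · omega
        · norm_num
        · norm_num
        · norm_num
      · rcases marks_mem hp with rfl | rfl | rfl | rfl | rfl
        · norm_num
        · norm_num
        · omega
        · omega
        · omega
  have hε0 : (0 : ℝ) ≤ 5 * q ^ 2 := by positivity
  have hε1 : 5 * q ^ 2 ≤ 8 * q ^ 2 := by linarith only [hq20]
  have h30 : (30 / 32 : ℝ) ∈ L := by
    have h1 : 14 ∈ t₂.top.marks := by cases t₂.top <;> simp [Col.marks]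
    have := memL2 14 h1 (by norm_num)
    norm_num at this ⊢
    exact this
  have hk : k = 0 := by
    by_contra hk
    refine r1 hSF hq0 hq1 hε0 hε1 hω0 hω1 E h30 hk ?_
    rw [le_abs]; left; norm_num
  have h3020 : (1 / 32 : ℝ) ≤ |30 / 32 - 20 / 32| := by rw [le_abs]; left; norm_num
  cases s with
  | tile t =>
    exfalso
    refine r2 hSF hq0 hq1 hε0 hε1 hω0 hω1 E h30 hk h3020 ?_
    intro p' hp'
    simp only [sd, List.mem_map] at hp'
    obtain ⟨p', hp', rfl⟩ := hp'
    rw [le_abs]
    rcases marks_mem hp' with rfl | rfl | rfl | rfl | rfl <;> norm_num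
  | lever σ' =>
    have hcol : t₁.top = pcol σ ∧ t₂.top = pcol σ ∧ σ' = σ := by
      have main : ∀ (a1 a2 : Col), t₁.top = a1 → t₂.top = a2 →
          a1 = pcol σ ∧ a2 = pcol σ ∧ σ' = σ := by
        intro a1 a2 ha1 ha2
        have cases' : ∀ r ∈ L, (∃ p : ℕ, p ∈ a1.marks ∧ 16 < p ∧ r = (p : ℝ) / 32 - 1 / 2) ∨
            (∃ p : ℕ, p ∈ a2.marks ∧ p < 16 ∧ r = (p : ℝ) / 32 + 1 / 2) := by
          intro r hr
          rw [← ha1, ← ha2]
          exact casesL r hr
        have m1 : ∀ p : ℕ, p ∈ a1.marks → 16 < p → (p : ℝ) / 32 - 1 / 2 ∈ L := by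
          intro p hp; rw [← ha1] at hp; exact memL1 p hp
        rw [ha1] at hm1
        rw [ha2] at hm2
        cases σ with
        | true =>
          have ha2' : a2 = .V := by
            cases a2 <;> simp [pcol, Col.marks] at hm2 ⊢
          subst ha2'
          have ha1' : a1 = .zero ∨ a1 = .D ∨ a1 = .V := by
            cases a1 <;> simp [pcol, Col.marks] at hm1 ⊢
          have ha1'' : a1 = .V := by
            by_contra hne
            have h10 : (10 / 32 : ℝ) ∈ sd (.lever σ') := by cases σ' <;> simp [sd, levD]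
            refine r3 hSF hq0 hq1 hε0 hε1 hω0 hω1 E h10 hk (by norm_num) (by norm_num) ?_
            intro r hr
            rw [le_abs]
            rcases cases' r hr with ⟨p, hp, hp16, rfl⟩ | ⟨p, hp, hp16, rfl⟩
            · rcases ha1' with rfl | rfl | rfl
              · simp only [Col.marks, List.mem_cons, List.not_mem_nil, or_false] at hp
                omega
              · simp only [Col.marks, List.mem_cons, List.not_mem_nil, or_false] at hp
                rcases hp with rfl | rfl
                · omega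
                · norm_num
              · exact absurd rfl hne
            · simp only [Col.marks, List.mem_cons, List.not_mem_nil, or_false] at hp
              rcases hp with rfl | rfl
              · norm_num
              · omega
          subst ha1''
          refine ⟨rfl, rfl, ?_⟩
          cases σ' with
          | true => rfl
          | false =>
            exfalso
            have h13 : (13 / 32 : ℝ) ∈ sd (.lever false) := by simp [sd, levD]
            refine r3 hSF hq0 hq1 hε0 hε1 hω0 hω1 E h13 hk (by norm_num) (by norm_num) ?_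
            intro r hr
            rw [le_abs]
            rcases cases' r hr with ⟨p, hp, hp16, rfl⟩ | ⟨p, hp, hp16, rfl⟩
            · simp only [Col.marks, List.mem_cons, List.not_mem_nil, or_false] at hp
              rcases hp with rfl | rfl
              · omega
              · norm_num
            · simp only [Col.marks, List.mem_cons, List.not_mem_nil, or_false] at hp
              rcases hp with rfl | rfl
              · norm_num
              · omega
        | false =>
          have ha2' : a2 = .W := by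
            cases a2 <;> simp [pcol, Col.marks] at hm2 ⊢
          have ha1' : a1 = .W := by
            cases a1 <;> simp [pcol, Col.marks] at hm1 ⊢
          subst ha2'
          subst ha1'
          refine ⟨rfl, rfl, ?_⟩
          cases σ' with
          | false => rfl
          | true =>
            exfalso
            have h13 : (13 / 32 : ℝ) ∈ L := by
              have := m1 29 (by simp [Col.marks]) (by norm_num)
              norm_num at this ⊢
              exact this
            refine r2 hSF hq0 hq1 hε0 hε1 hω0 hω1 E h13 hk (by rw [le_abs]; right; norm_num) ?_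
            intro p' hp'
            simp only [sd, levD, List.mem_cons, List.not_mem_nil, or_false] at hp'
            rw [le_abs]
            rcases hp' with rfl | rfl <;> norm_num
      exact main _ _ rfl rfl
    obtain ⟨c1, c2, rfl⟩ := hcol
    have hu2 := u2_le hSF hq0 hq1 hε0 hε1 hω0 hω1 E
    obtain ⟨hv1, hv2⟩ := r4 hSF hq0 hq1 hε0 hε1 hω0 hω1 E h30 hk (by simp [st]) h3020
    obtain ⟨hu, hv⟩ := hk0 hk
    refine ⟨c1, c2, rfl, ?_, ?_⟩
    · have h3 := f.one_sub
      have h4 := f.u1_le
      have h5 : f.u2 ^ 2 ≤ |f.u2| := by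
        rw [← sq_abs]
        have := f.h2
        nlinarith only [hq1, hω1, hq2, hu2, abs_nonneg f.u2]
      have e : h.u - 1 = ⟨f.u1 - 1, f.u2⟩ := by rw [hu]; apply Complex.ext <;> simp
      rw [e]
      refine (norm_mk_le _ _).trans ?_
      rw [abs_sub_comm, abs_of_nonneg (by linarith only [h4])]
      linarith only [hω1, hq20, hu2, h3, h5]
    · rw [zero_add] at hv
      rw [hv]
      refine (norm_mk_le _ _).trans ?_
      have h6 : q ^ 3 ≤ q ^ 2 := by
        have : q ^ 3 = q ^ 2 * q := by ring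
        rw [this]
        nlinarith only [hq1]
      linarith only [hω1, hq20, hv1, hv2, h6]

end

end Pool.Agent.Helper85_Pack
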