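import Pool.Agent.Helper85_Pack.Facts

/-!
For modules F1, F2: the position of a piece whose lower side is near a given profile.
-/

namespace Pool.Agent.Helper85_Pack

open Pool.Agent.Helper2_Pack

/-- a motion near the identity, in real coordinates -/
structure Fr where
  u1 : ℝ
  u2 : ℝ
  v1 : ℝ
  v2 : ℝ
  unit : u1 ^ 2 + u2 ^ 2 = 1
  h1 : |u1 - 1| ≤ 1 / 256
  h2 : |u2| ≤ 1 / 256
  c1 : |u1 / 2 - u2 / 2 + v1 - 1 / 2| ≤ 1 / 256
  c2 : |u2 / 2 + u1 / 2 + v2 - 1 / 2| ≤ 1 / 256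

namespace Fr

variable (f : Fr)

/-- first frame coordinate -/
def X (x y : ℝ) : ℝ := f.u1 * (x - f.v1) + f.u2 * (y - f.v2)

/-- second frame coordinate -/
def Y (x y : ℝ) : ℝ := f.u1 * (y - f.v2) - f.u2 * (x - f.v1)

theorem u1_pos : 255 / 256 ≤ f.u1 := by
  have := (abs_le.1 f.h1).1
  linarith only [this]

theorem u1_le : f.u1 ≤ 1 := by
  nlinarith [f.unit, sq_nonneg f.u2, f.u1_pos]

theorem one_sub : 1 - f.u1 ≤ f.u2 ^ 2 := by
  nlinarith only [f.unit, f.u1_pos, f.u1_le]

theorem X_near {x y : ℝ} (hx : |x| ≤ 4) (hy : |y| ≤ 1 / 8) : |f.X x y - x| ≤ 1 / 128 := by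
  have hu := f.one_sub
  have hu1 := f.u1_le
  have h2 := f.h2
  have c1 := f.c1
  have c2 := f.c2
  set C1 := f.u1 / 2 - f.u2 / 2 + f.v1 with hC1
  set C2 := f.u2 / 2 + f.u1 / 2 + f.v2 with hC2
  have e : f.X x y - x = (f.u1 - 1) * (x - C1) + (1 / 2 - C1) + f.u2 * (y - C2) := by
    unfold X
    rw [hC1, hC2]
    linear_combination (1 / 2 : ℝ) * f.unit
  rw [e]
  rw [abs_le] at hx hy c1 c2
  have a1 : |x - C1| ≤ 5 := by rw [abs_le]; constructor <;> linarith only [hx.1, hx.2, c1.1, c1.2]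
  have a2 : |y - C2| ≤ 81 / 128 := by
    rw [abs_le]; constructor <;> linarith only [hy.1, hy.2, c2.1, c2.2]
  have a3 : |f.u1 - 1| ≤ 1 / 65536 := by
    rw [abs_sub_comm, abs_of_nonneg (by linarith only [hu1])]
    have : f.u2 ^ 2 ≤ (1 / 256) ^ 2 := by
      rw [← sq_abs]; exact pow_le_pow_left₀ (abs_nonneg _) h2 2
    norm_num at this
    linarith only [hu, this]
  have b1 : |(f.u1 - 1) * (x - C1)| ≤ 1 / 65536 * 5 := by
    rw [abs_mul]; exact mul_le_mul a3 a1 (abs_nonneg _) (by norm_num)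
  have b2 : |f.u2 * (y - C2)| ≤ 1 / 256 * (81 / 128) := by
    rw [abs_mul]; exact mul_le_mul h2 a2 (abs_nonneg _) (by norm_num)
  have b3 : |1 / 2 - C1| ≤ 1 / 256 := by rw [abs_le]; constructor <;> linarith only [c1.1, c1.2]
  refine (abs_add_le _ _).trans ?_
  have := abs_add_le ((f.u1 - 1) * (x - C1)) (1 / 2 - C1)
  linarith only [b1, b2, b3, this]

theorem Y_near {x y : ℝ} (hx0 : 0 ≤ x) (hx1 : x ≤ 1) (hy : |y| ≤ 1 / 8) :
    |f.Y x y - y| ≤ 1 / 128 := by
  have hu := f.one_sub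
  have hu1 := f.u1_le
  have h2 := f.h2
  have c1 := f.c1
  have c2 := f.c2
  set C1 := f.u1 / 2 - f.u2 / 2 + f.v1 with hC1
  set C2 := f.u2 / 2 + f.u1 / 2 + f.v2 with hC2
  have e : f.Y x y - y = (f.u1 - 1) * (y - C2) + (1 / 2 - C2) - f.u2 * (x - C1) := by
    unfold Y
    rw [hC1, hC2]
    linear_combination (1 / 2 : ℝ) * f.unit
  rw [e]
  rw [abs_le] at hy c1 c2
  have a1 : |x - C1| ≤ 65 / 128 := by rw [abs_le]; constructor <;> linarith only [hx0, hx1, c1.1, c1.2]
  have a2 : |y - C2| ≤ 81 / 128 := by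
    rw [abs_le]; constructor <;> linarith only [hy.1, hy.2, c2.1, c2.2]
  have a3 : |f.u1 - 1| ≤ 1 / 65536 := by
    rw [abs_sub_comm, abs_of_nonneg (by linarith only [hu1])]
    have : f.u2 ^ 2 ≤ (1 / 256) ^ 2 := by
      rw [← sq_abs]; exact pow_le_pow_left₀ (abs_nonneg _) h2 2
    norm_num at this
    linarith only [hu, this]
  have b1 : |(f.u1 - 1) * (y - C2)| ≤ 1 / 65536 * (81 / 128) := by
    rw [abs_mul]; exact mul_le_mul a3 a2 (abs_nonneg _) (by norm_num)
  have b2 : |f.u2 * (x - C1)| ≤ 1 / 256 * (65 / 128) := by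
    rw [abs_mul]; exact mul_le_mul h2 a1 (abs_nonneg _) (by norm_num)
  have b3 : |1 / 2 - C2| ≤ 1 / 256 := by rw [abs_le]; constructor <;> linarith only [c2.1, c2.2]
  refine (abs_sub _ _).trans ?_
  have := abs_add_le ((f.u1 - 1) * (y - C2)) (1 / 2 - C2)
  linarith only [b1, b2, b3, this]

/-- height of the line `Y = b` -/
noncomputable def ell (b x : ℝ) : ℝ := f.v2 + (b + f.u2 * (x - f.v1)) / f.u1

theorem Y_sub (b x y : ℝ) : f.Y x y - b = f.u1 * (y - f.ell b x) := by
  have h := f.u1_pos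
  have h0 : f.u1 ≠ 0 := by linarith
  unfold Y ell
  field_simp
  ring

theorem ell_sub (b x y : ℝ) : f.ell b x - f.ell b y = f.u2 / f.u1 * (x - y) := by
  unfold ell
  ring

theorem v_bound : |f.v1| ≤ 1 / 64 ∧ |f.v2| ≤ 1 / 64 := by
  have c1 := f.c1
  have c2 := f.c2
  have h1 := f.h1
  have h2 := f.h2
  rw [abs_le] at c1 c2 h1 h2
  rw [abs_le, abs_le]
  refine ⟨⟨?_, ?_⟩, ?_, ?_⟩ <;> linarith only [c1.1, c1.2, c2.1, c2.2, h1.1, h1.2, h2.1, h2.2]

end Fr

/-- coordinates in the original position of the shape -/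
def fk : ℕ → ℝ → ℝ → ℝ × ℝ
  | 0, X, Y => (X, Y)
  | 1, X, Y => (Y, 1 - X)
  | 2, X, Y => (1 - X, 1 - Y)
  | _, X, Y => (1 - Y, X)

/-- membership -/
def InR (s : Sh) (k : ℕ) (X Y : ℝ) : Prop :=
  s.xl ≤ (fk k X Y).1 ∧ (fk k X Y).1 ≤ s.xr ∧ s.lo (fk k X Y).1 ≤ (fk k X Y).2 ∧
    (fk k X Y).2 ≤ s.hi (fk k X Y).1

/-- membership in the interior -/
def InI (s : Sh) (k : ℕ) (X Y : ℝ) : Prop :=
  s.xl < (fk k X Y).1 ∧ (fk k X Y).1 < s.xr ∧ s.lo (fk k X Y).1 < (fk k X Y).2 ∧
    (fk k X Y).2 < s.hi (fk k X Y).1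

/-- the base line of the lower side -/
def bk (s : Sh) (base : ℝ) : ℕ → ℝ
  | 0 => base
  | 1 => s.xl
  | 2 => 0
  | _ => 1 - s.xr

section

variable {q base : ℝ} {s : Sh} {dents tips : List ℝ} (h : SF q s base dents tips)
  (hq0 : 0 < q) (hq1 : q ≤ 1 / 2 ^ 20)
include h hq0 hq1

theorem bk_bound (k : ℕ) : -q ≤ bk s base k ∧ bk s base k ≤ q := by
  have h3 := q3_le hq0 hq1
  have := h.b0
  have := h.b1
  have := h.xl0
  have := h.xl1
  have := h.xr0
  have := h.xr1
  match k with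
  | 0 => simp only [bk]; constructor <;> linarith
  | 1 => simp only [bk]; constructor <;> linarith
  | 2 => simp only [bk]; constructor <;> linarith
  | (k + 3) => simp only [bk]; constructor <;> linarith

/-- below the base line -/
theorem w1 {k : ℕ} {X Y : ℝ} (hX : Win X) (hY : Y < bk s base k) : ¬ InR s k X Y := by
  intro hr
  match k with
  | 0 =>
    simp only [bk] at hY
    simp only [InR, fk] at hr
    rw [h.lo_win X hX] at hr
    linarith [hr.2.2.1]
  | 1 =>
    simp only [bk] at hY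
    simp only [InR, fk] at hr
    linarith [hr.1]
  | 2 =>
    simp only [bk] at hY
    simp only [InR, fk] at hr
    have := h.hi_le1 (1 - X) hX.symm
    linarith [hr.2.2.2]
  | (k + 3) =>
    simp only [bk] at hY
    simp only [InR, fk] at hr
    linarith [hr.2.1]

/-- above the base line, for the sides other than the bottom side -/
theorem w3 {k : ℕ} {X Y : ℝ} (hk : k ≠ 0) (hX0 : 1 / 32 ≤ X) (hX1 : X ≤ 61 / 64)
    (hX2 : k = 2 → 1 / 64 ≤ |X - 12 / 32|) (hY : bk s base k < Y) (hY2 : Y < 1 / 4) :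
    InI s k X Y := by
  have hb := bk_bound h hq0 hq1 k
  have hsm : q ≤ 1 / 1048576 := by norm_num at hq1 ⊢; exact hq1
  have := h.xl0
  have := h.xl1
  have := h.xr0
  have := h.xr1
  match k with
  | 0 => exact absurd rfl hk
  | 1 =>
    simp only [bk] at hY
    simp only [InI, fk]
    have h1 := h.lo_le Y hY.le (by linarith)
    have h2 := h.hi_ge Y hY.le (by linarith) (by rw [le_abs]; right; linarith only [hY2])
    refine ⟨hY, by linarith, by linarith only [hX1, h1], by linarith only [hX0, h2]⟩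
  | 2 =>
    simp only [bk] at hY
    simp only [InI, fk]
    have h0 : 1 / 64 ≤ |1 - X - 20 / 32| := by
      have e : 1 - X - 20 / 32 = -(X - 12 / 32) := by ring
      rw [e, abs_neg]
      exact hX2 rfl
    have h1 := h.lo_le (1 - X) (by linarith) (by linarith)
    have h2 := h.hi_ge1 (1 - X) (by linarith only [hX1]) (by linarith only [hX0]) h0
    refine ⟨by linarith, by linarith, by linarith only [hY2, h1], by linarith only [hY, h2]⟩
  | (k + 3) =>
    simp only [bk] at hY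
    simp only [InI, fk]
    have h1 := h.lo_le (1 - Y) (by linarith) (by linarith only [hY])
    have h2 := h.hi_ge (1 - Y) (by linarith) (by linarith) (by rw [le_abs]; left; linarith)
    refine ⟨by linarith, by linarith only [hY], by linarith only [hX0, h1], by linarith⟩

/-- above the base line, for the bottom side -/
theorem w4 {X Y : ℝ} (hX0 : 1 / 32 ≤ X) (hX1 : X ≤ 61 / 64) (hX2 : 1 / 64 ≤ |X - 20 / 32|)
    (hX3 : ∀ p ∈ dents, 1 / 64 ≤ |X - p|) (hY : base < Y) (hY2 : Y < 1 / 4) :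
    InI s 0 X Y := by
  have hsm : q ≤ 1 / 1048576 := by norm_num at hq1 ⊢; exact hq1
  have := h.xl0
  have := h.xl1
  have := h.xr0
  have := h.xr1
  simp only [InI, fk]
  have h1 := h.lo_base X (by linarith only [hX0]) (by linarith only [hX1]) hX3
  have h2 := h.hi_ge1 X (by linarith only [hX0]) (by linarith only [hX1]) hX2
  exact ⟨by linarith, by linarith, by linarith only [hY, h1], by linarith only [hY2, h2]⟩

/-- above the base line in the windows -/
theorem w2 {k : ℕ} {X Y : ℝ} (hX : Win X) (hY : bk s base k < Y) (hY2 : Y < 1 / 4) :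
    InI s k X Y := by
  have hX' : 13 / 64 ≤ X ∧ X ≤ 51 / 64 := by
    rcases hX with hX | hX <;> constructor <;> linarith only [hX.1, hX.2]
  have hs : ∀ c : ℝ, c = 12 / 32 ∨ c = 20 / 32 → 1 / 64 ≤ |X - c| := by
    intro c hc
    rw [le_abs]
    rcases hc with rfl | rfl <;> rcases hX with hX | hX <;> first
      | (left; linarith only [hX.1, hX.2]) | (right; linarith only [hX.1, hX.2])
  by_cases hk : k = 0
  · subst hk
    have hsm : q ≤ 1 / 1048576 := by norm_num at hq1 ⊢; exact hq1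
    have := h.xl0
    have := h.xl1
    have := h.xr0
    have := h.xr1
    simp only [bk] at hY
    simp only [InI, fk]
    have h1 := h.lo_win X hX
    have h2 := h.hi_ge1 X (by linarith) (by linarith) (hs _ (Or.inr rfl))
    exact ⟨by linarith, by linarith, by linarith, by linarith⟩
  · exact w3 h hq0 hq1 hk (by linarith) (by linarith) (fun _ => hs _ (Or.inl rfl)) hY hY2

end

/-- the environment of the lower side -/
structure Env (q ε ω : ℝ) (L : List ℝ) (f : Fr) (s : Sh) (k : ℕ) : Prop where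
  a : ∀ x y, ((7 / 32 < x ∧ x < 9 / 32) ∨ (23 / 32 < x ∧ x < 25 / 32)) → -1 / 8 < y → y < -ε →
    ¬ InI s k (f.X x y) (f.Y x y)
  b : ∀ p ∈ L, ∃ x y, |x - p| ≤ ε ∧ |y - q| ≤ ε ∧ ¬ InI s k (f.X x y) (f.Y x y)
  c : ∀ x1 x2 y1 y2, 1 / 16 < x1 → x1 < x2 → x2 < 15 / 16 → ε ≤ y1 → y1 < y2 → y2 ≤ 1 / 8 →
    (∀ p ∈ L, ∀ x, x1 < x → x < x2 → 2 * q ≤ |x - p|) →
    (∀ x y, x1 < x → x < x2 → y1 < y → y < y2 → ¬ InR s k (f.X x y) (f.Y x y)) →
    (x2 - x1) * (y2 - y1) ≤ ω
  L : ∀ p ∈ L, 1 / 16 ≤ p ∧ p ≤ 30 / 32 ∧ 1 / 16 ≤ |p - 8 / 32| ∧ 1 / 16 ≤ |p - 24 / 32|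

section

variable {q ε ω base : ℝ} {L : List ℝ} {f : Fr} {s : Sh} {k : ℕ} {dents tips : List ℝ}
  (h : SF q s base dents tips) (hq0 : 0 < q) (hq1 : q ≤ 1 / 2 ^ 20) (hε0 : 0 ≤ ε)
  (hε1 : ε ≤ 8 * q ^ 2) (hω0 : 0 ≤ ω) (hω1 : ω ≤ q ^ 2 / 64) (E : Env q ε ω L f s k)
include h hq0 hq1 hε0 hε1 hω0 hω1 E

theorem ell_window {x0 : ℝ} (hx0 : x0 = 8 / 32 ∨ x0 = 24 / 32) :
    -ε ≤ f.ell (bk s base k) x0 ∧ f.ell (bk s base k) x0 ≤ ε + 32 * ω := by
  have hsm : q ≤ 1 / 1048576 := by norm_num at hq1 ⊢; exact hq1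
  have hq2 := q2_le hq0 hq1
  have hu := f.u1_pos
  have hwin : ∀ x y, x0 - 1 / 32 ≤ x → x ≤ x0 + 1 / 32 → |y| ≤ 1 / 8 → Win (f.X x y) := by
    intro x y h1 h2 hy
    have hx : |x| ≤ 4 := by
      rw [abs_le]; rcases hx0 with rfl | rfl <;> constructor <;> linarith only [h1, h2]
    have h3 := f.X_near hx hy
    rw [abs_le] at h3
    rcases hx0 with rfl | rfl
    · left; constructor <;> linarith only [h1, h2, h3.1, h3.2]
    · right; constructor <;> linarith only [h1, h2, h3.1, h3.2]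
  have hx01 : 1 / 4 ≤ x0 ∧ x0 ≤ 3 / 4 := by
    rcases hx0 with rfl | rfl <;> constructor <;> norm_num
  set b := bk s base k with hb
  constructor
  · by_contra hcon
    push Not at hcon
    set y := max (f.ell b x0) (-1 / 16) / 2 + (-ε) / 2 with hy
    have hε' : ε ≤ 1 / 64 := by linarith only [hq1, hε1, hq2]
    have h1 : f.ell b x0 < y := by
      have := le_max_left (f.ell b x0) (-1 / 16)
      have h2 : max (f.ell b x0) (-1 / 16) < -ε := max_lt hcon (by linarith only [hq1, hε1, hq2])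
      linarith only [hcon, hy, this]
    have h2 : y < -ε := by
      have h2 : max (f.ell b x0) (-1 / 16) < -ε := max_lt hcon (by linarith only [hq1, hε1, hq2])
      linarith only [hy, h2]
    have h3 : -1 / 16 ≤ y := by
      have := le_max_right (f.ell b x0) (-1 / 16)
      linarith only [hq1, hε1, hq2, hy, this]
    have hya : |y| ≤ 1 / 8 := by rw [abs_le]; constructor <;> linarith only [h3, hε0, h2]
    apply E.a x0 y _ (by linarith) h2
    · apply w2 h hq0 hq1 (hwin x0 y (by linarith) (by linarith) hya)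
      · have := f.Y_sub b x0 y
        have h4 : 0 < f.u1 * (y - f.ell b x0) := mul_pos (by linarith only [hu]) (by linarith only [h1])
        linarith only [this, h4]
      · have := f.Y_near (x := x0) (y := y) (by linarith only [hx01]) (by linarith only [hx01]) hya
        rw [abs_le] at this
        linarith only [hε0, h2, this.2]
    · rcases hx0 with rfl | rfl
      · left; constructor <;> norm_num
      · right; constructor <;> norm_num
  · by_contra hcon
    push Not at hcon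
    have hLfar : ∀ p ∈ L, ∀ x, x0 - 1 / 32 < x → x < x0 + 1 / 32 → 2 * q ≤ |x - p| := by
      intro p hp x hxa hxb
      obtain ⟨-, -, g1, g2⟩ := E.L p hp
      have g3 : 1 / 16 ≤ |p - x0| := by rcases hx0 with rfl | rfl <;> assumption
      have g4 : |p - x0| ≤ |p - x| + |x - x0| := abs_sub_le _ _ _
      have g5 : |x - x0| ≤ 1 / 32 := by rw [abs_le]; constructor <;> linarith only [hxa, hxb]
      rw [abs_sub_comm x p]
      linarith only [hq1, g3, g4, g5]
    set m := min (f.ell b x0) (1 / 16) with hm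
    have hm1 : ε + 32 * ω < m := lt_min hcon (by linarith only [hq1, hε1, hω1, hq2])
    have key : ∀ x1 x2, x0 - 1 / 32 ≤ x1 → x2 ≤ x0 + 1 / 32 → x2 - x1 = 1 / 32 →
        (∀ x, x1 < x → x < x2 → f.ell b x0 ≤ f.ell b x) → False := by
      intro x1 x2 hx1 hx2 hx12 hell
      have g := E.c x1 x2 ε m (by linarith only [hx01, hx1]) (by linarith only [hx12]) (by linarith only [hx01, hx2]) le_rfl (by linarith only [hω0, hm1])
        ((min_le_right _ _).trans (by norm_num)) (fun p hp x hxa hxb => hLfar p hp x (by linarith only [hx1, hxa])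
          (by linarith only [hx2, hxb])) (fun x y hxa hxb hya hyb => by
            apply w1 h hq0 hq1 (hwin x y (by linarith) (by linarith only [hx2, hxb]) (by
              rw [abs_le]
              have := min_le_right (f.ell b x0) (1 / 16)
              constructor <;> linarith only [hε0, hya, hyb, this]))
            have g1 := hell x hxa hxb
            have g2 := f.Y_sub b x y
            have g3 : y < f.ell b x := by
              have := min_le_left (f.ell b x0) (1 / 16)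
              linarith only [hyb, g1, this]
            have g4 : f.u1 * (y - f.ell b x) < 0 := mul_neg_of_pos_of_neg (by linarith only [hu]) (by linarith only [g3])
            linarith only [g2, g4])
      rw [hx12] at g
      linarith only [hm1, g]
    rcases le_total 0 (f.u2 / f.u1) with hs | hs
    · apply key x0 (x0 + 1 / 32) (by linarith) le_rfl (by ring)
      intro x hxa _
      have g1 := f.ell_sub b x x0
      have g2 := mul_nonneg hs (show 0 ≤ x - x0 by linarith only [hxa])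
      linarith only [g1, g2]
    · apply key (x0 - 1 / 32) x0 le_rfl (by linarith) (by ring)
      intro x _ hxb
      have g1 := f.ell_sub b x x0
      have g2 := mul_nonneg_of_nonpos_of_nonpos hs (show x - x0 ≤ 0 by linarith only [hxb])
      linarith only [g1, g2]

/-- the slope -/
theorem slope_le : |f.u2 / f.u1| ≤ 4 * ε + 64 * ω := by
  have h1 := ell_window h hq0 hq1 hε0 hε1 hω0 hω1 E (x0 := 8 / 32) (Or.inl rfl)
  have h2 := ell_window h hq0 hq1 hε0 hε1 hω0 hω1 E (x0 := 24 / 32) (Or.inr rfl)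
  have h3 := f.ell_sub (bk s base k) (24 / 32) (8 / 32)
  rw [abs_le]
  constructor <;> linarith only [h3, h1.1, h1.2, h2.1, h2.2]

theorem u2_le : |f.u2| ≤ 4 * ε + 64 * ω := by
  have h1 := slope_le h hq0 hq1 hε0 hε1 hω0 hω1 E
  have hu := f.u1_pos
  have hu1 := f.u1_le
  have h0 : f.u1 ≠ 0 := by linarith
  have e : f.u2 = f.u2 / f.u1 * f.u1 := by field_simp
  rw [e, abs_mul, abs_of_pos (by linarith only [hu] : 0 < f.u1)]
  have := mul_le_mul h1 hu1 (by linarith) (by positivity)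
  linarith only [this]

/-- the base line is near the axis -/
theorem ell_le {x : ℝ} (hx0 : 0 ≤ x) (hx1 : x ≤ 1) :
    |f.ell (bk s base k) x| ≤ 4 * ε + 80 * ω := by
  have h1 := ell_window h hq0 hq1 hε0 hε1 hω0 hω1 E (x0 := 8 / 32) (Or.inl rfl)
  have h2 := slope_le h hq0 hq1 hε0 hε1 hω0 hω1 E
  have h3 := f.ell_sub (bk s base k) x (8 / 32)
  have h4 : |f.u2 / f.u1 * (x - 8 / 32)| ≤ (4 * ε + 64 * ω) * (3 / 4) := by
    rw [abs_mul]
    apply mul_le_mul h2 _ (abs_nonneg _) (by positivity)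
    rw [abs_le]; constructor <;> linarith only [hx0, hx1]
  have h5 : |f.ell (bk s base k) (8 / 32)| ≤ ε + 32 * ω := by
    rw [abs_le]; constructor <;> linarith only [hω0, h1.1, h1.2]
  have h6 : f.ell (bk s base k) x = f.ell (bk s base k) (8 / 32) + f.u2 / f.u1 * (x - 8 / 32) := by
    linarith only [h3]
  rw [h6]
  refine (abs_add_le _ _).trans ?_
  linarith only [h4, h5]

/-- the position of the apex of a bump in the frame -/
theorem apex {p : ℝ} (hp : p ∈ L) : ∃ X Y : ℝ, |X - p| ≤ 1 / 128 + ε ∧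
    (1 - 1 / 65536) * q - (5 * ε + 80 * ω) ≤ Y - bk s base k ∧ Y < 1 / 4 ∧ ¬ InI s k X Y ∧
    ∃ x y, |x - p| ≤ ε ∧ |y - q| ≤ ε ∧ X = f.X x y ∧ Y = f.Y x y := by
  have hsm : q ≤ 1 / 1048576 := by norm_num at hq1 ⊢; exact hq1
  have hq2 := q2_le hq0 hq1
  obtain ⟨x, y, hx, hy, hn⟩ := E.b p hp
  obtain ⟨p0, p1, -, -⟩ := E.L p hp
  have hε2 : ε ≤ 1 / 1000 := by linarith only [hq1, hε1, hq2]
  have hx' := abs_le.1 hx
  have hy' := abs_le.1 hy
  have hxa : |x| ≤ 4 := by rw [abs_le]; constructor <;> linarith only [hq1, hε1, hq2, p0, hx', p1]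
  have hya : |y| ≤ 1 / 8 := by rw [abs_le]; constructor <;> linarith only [hε1, hq2, hy', hq1]
  have hX := f.X_near hxa hya
  have hY := f.Y_near (x := x) (y := y) (by linarith only [hq1, hε1, hq2, p0, hx']) (by linarith) hya
  have hYs := f.Y_sub (bk s base k) x y
  have hell := ell_le h hq0 hq1 hε0 hε1 hω0 hω1 E (x := x) (by linarith only [hq1, hε1, hq2, p0, hx']) (by linarith only [hq1, hε1, hq2, p1, hx'])
  have hu0 := f.u1_pos
  have hu1 := f.u1_le
  refine ⟨f.X x y, f.Y x y, ?_, ?_, ?_, hn, x, y, hx, hy, rfl, rfl⟩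
  · have : |f.X x y - p| ≤ |f.X x y - x| + |x - p| := abs_sub_le _ _ _
    linarith only [hx, hX, this]
  · rw [hYs]
    have hell' := abs_le.1 hell
    have g1 : q - (5 * ε + 80 * ω) ≤ y - f.ell (bk s base k) x := by linarith only [hy', hell']
    have g0 : 0 ≤ q - (5 * ε + 80 * ω) := by linarith only [hq0, hε1, hω1, hq2]
    have g2 : 1 - 1 / 65536 ≤ f.u1 := by
      have h2 := f.h2
      have := f.one_sub
      have h4 : f.u2 ^ 2 ≤ (1 / 256) ^ 2 := by
        rw [← sq_abs]; exact pow_le_pow_left₀ (abs_nonneg _) h2 2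
      norm_num at h4
      linarith only [this, h4]
    calc (1 - 1 / 65536) * q - (5 * ε + 80 * ω)
        ≤ (1 - 1 / 65536) * (q - (5 * ε + 80 * ω)) := by linarith only [hε0, hω0]
      _ ≤ f.u1 * (y - f.ell (bk s base k) x) := mul_le_mul g2 g1 g0 (by linarith only [g2])
  · have := abs_le.1 hY
    linarith only [hq1, hε1, hq2, hy', this.2]

/-- a bump under a side which is not a bottom side -/
theorem r1 {p : ℝ} (hp : p ∈ L) (hk : k ≠ 0) (hp12 : 1 / 32 ≤ |p - 12 / 32|) : False := by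
  have hsm : q ≤ 1 / 1048576 := by norm_num at hq1 ⊢; exact hq1
  have hq2 := q2_le hq0 hq1
  obtain ⟨X, Y, hX, hY, hY2, hn, -⟩ := apex h hq0 hq1 hε0 hε1 hω0 hω1 E hp
  obtain ⟨p0, p1, -, -⟩ := E.L p hp
  have hX' := abs_le.1 hX
  apply hn
  apply w3 h hq0 hq1 hk (by linarith only [hq1, hε1, hq2, p0, hX']) (by linarith only [hq1, hε1, hq2, p1, hX']) _ (by linarith only [hq0, hε1, hω1, hq2, hY]) hY2
  intro _
  have : |p - 12 / 32| ≤ |p - X| + |X - 12 / 32| := abs_sub_le _ _ _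
  rw [abs_sub_comm p X] at this
  linarith

/-- a bump without a dent -/
theorem r2 {p : ℝ} (hp : p ∈ L) (hk : k = 0) (hp20 : 1 / 32 ≤ |p - 20 / 32|)
    (hd : ∀ p' ∈ dents, 1 / 32 ≤ |p - p'|) : False := by
  have hsm : q ≤ 1 / 1048576 := by norm_num at hq1 ⊢; exact hq1
  have hq2 := q2_le hq0 hq1
  subst hk
  obtain ⟨X, Y, hX, hY, hY2, hn, -⟩ := apex h hq0 hq1 hε0 hε1 hω0 hω1 E hp
  obtain ⟨p0, p1, -, -⟩ := E.L p hp
  have hX' := abs_le.1 hX
  simp only [bk] at hY
  apply hn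
  apply w4 h hq0 hq1 (by linarith only [hq1, hε1, hq2, p0, hX']) (by linarith only [hq1, hε1, hq2, p1, hX']) _ _ (by linarith only [hq0, hε1, hω1, hq2, hY]) hY2
  · have : |p - 20 / 32| ≤ |p - X| + |X - 20 / 32| := abs_sub_le _ _ _
    rw [abs_sub_comm p X] at this
    linarith only [hq1, hε1, hp20, hq2, hX, this]
  · intro p' hp'
    have g := hd p' hp'
    have : |p - p'| ≤ |p - X| + |X - p'| := abs_sub_le _ _ _
    rw [abs_sub_comm p X] at this
    linarith only [hq1, hε1, hq2, hX, g, this]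

/-- a dent without a bump -/
theorem r3 {p' : ℝ} (hp' : p' ∈ dents) (hk : k = 0) (h0 : 1 / 8 ≤ p') (h1 : p' ≤ 29 / 32)
    (hd : ∀ p ∈ L, 3 / 128 ≤ |p - p'|) : False := by
  have hsm : q ≤ 1 / 1048576 := by norm_num at hq1 ⊢; exact hq1
  have hq2 := q2_le hq0 hq1
  have hq3 := q3_le hq0 hq1
  subst hk
  have hu0 := f.u1_pos
  have hu1 := f.u1_le
  have hv := f.v_bound
  have hv1 := abs_le.1 hv.1
  have hv2 := abs_le.1 hv.2
  have hu2 := f.h2
  have hune : f.u1 ≠ 0 := by linarith only [hu0]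
  set xc := f.v1 + (p' + f.u2 * f.v2) / f.u1 with hxc
  have hXc : f.X xc 0 = p' := by
    unfold Fr.X
    rw [hxc]
    field_simp
    ring
  have huv : |f.u2 * f.v2| ≤ 1 / 256 * (1 / 64) := by
    rw [abs_mul]; exact mul_le_mul hu2 hv.2 (abs_nonneg _) (by norm_num)
  have huv' := abs_le.1 huv
  have hxa : |xc| ≤ 4 := by
    rw [hxc]
    refine (abs_add_le _ _).trans ?_
    have : |(p' + f.u2 * f.v2) / f.u1| ≤ 2 := by
      rw [abs_div, abs_of_pos (by linarith only [hu0] : 0 < f.u1), div_le_iff₀ (by linarith only [hu0]), abs_le]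
      constructor <;> linarith only [h0, hu0, huv', h1]
    linarith only [this, hv.1]
  have hnear := f.X_near hxa (y := 0) (by norm_num)
  rw [hXc] at hnear
  have hn' := abs_le.1 hnear
  have g := E.c (xc - q / 4) (xc + q / 4) ε (q / 2) (by linarith only [hq1, h0, hn']) (by linarith only [hq0]) (by linarith only [hq1, h1, hn']) le_rfl
    (by linarith only [hq0, hε1, hq2]) (by linarith only [hq1]) ?_ ?_
  · have e : xc + q / 4 - (xc - q / 4) = q / 2 := by ring
    rw [e] at g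
    nlinarith only [hω1, g, hq1, hq0, hε1]
  · intro p hp x hxa hxb
    have g1 := hd p hp
    have g2 : |p - p'| ≤ |p - x| + |x - p'| := abs_sub_le _ _ _
    have g3 : |x - p'| ≤ 1 / 128 + q / 4 := by rw [abs_le]; constructor <;> linarith only [hn', hxa, hxb]
    rw [abs_sub_comm x p]
    linarith only [hq1, g1, g2, g3]
  · intro x y hxa hxb hya hyb hr
    simp only [InR, fk] at hr
    have g1 : f.X x y - p' = f.u1 * (x - xc) + f.u2 * y := by
      rw [← hXc]; unfold Fr.X; ring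
    have g2 : |f.X x y - p'| ≤ q / 4 + 1 / 256 * (q / 2) := by
      rw [g1]
      refine (abs_add_le _ _).trans (add_le_add ?_ ?_)
      · rw [abs_mul, abs_of_pos (by linarith only [hu0] : 0 < f.u1)]
        have : |x - xc| ≤ q / 4 := by rw [abs_le]; constructor <;> linarith only [hxa, hxb]
        nlinarith only [this, hu1, abs_nonneg (x - xc)]
      · rw [abs_mul]
        apply mul_le_mul hu2 _ (abs_nonneg _) (by norm_num)
        rw [abs_le]; constructor <;> linarith only [hε0, hya, hyb]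
    have g3 := h.lo_dent p' hp' (f.X x y) (by linarith only [hε0, hya, hyb, g2])
    have g4 := f.Y_sub base x y
    have g5 := ell_le h hq0 hq1 hε0 hε1 hω0 hω1 E (x := x) (by linarith only [hq1, h0, hn', hxa]) (by linarith only [hq1, h1, hn', hxb])
    simp only [bk] at g5
    have g5' := abs_le.1 g5
    have g6 : f.u1 * (y - f.ell base x) ≤ q / 2 + (4 * ε + 80 * ω) := by
      have g7 : y - f.ell base x ≤ q / 2 + (4 * ε + 80 * ω) := by linarith only [hyb, g5']
      have g8 : 0 ≤ q / 2 + (4 * ε + 80 * ω) := by linarith only [hε0, hω0, hya, hyb]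
      calc f.u1 * (y - f.ell base x) ≤ f.u1 * (q / 2 + (4 * ε + 80 * ω)) :=
            mul_le_mul_of_nonneg_left g7 (by linarith only [hu0])
        _ ≤ 1 * (q / 2 + (4 * ε + 80 * ω)) := mul_le_mul_of_nonneg_right hu1 g8
        _ = _ := one_mul _
    have g9 := hr.2.2.1
    have g10 := h.b1
    linarith only [hε1, hω1, hq2, hq3, hya, hyb, hr, g2, g3, g4, g6, g10]

/-- the position of the piece, when there is a bump under a precise dent -/
theorem r4 {p : ℝ} (hp : p ∈ L) (hk : k = 0) (hpt : p ∈ tips) (hp20 : 1 / 32 ≤ |p - 20 / 32|) :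
    |f.v1| ≤ 20 * ε + 200 * ω + 5 * q ^ 3 ∧ |f.v2| ≤ 20 * ε + 200 * ω + 5 * q ^ 3 := by
  have hsm : q ≤ 1 / 1048576 := by norm_num at hq1 ⊢; exact hq1
  have hq2 := q2_le hq0 hq1
  have hq3 := q3_le hq0 hq1
  have hq30 : 0 < q ^ 3 := by positivity
  subst hk
  obtain ⟨X, Y, hX, hY, hY2, hn, x, y, hx, hy, hXe, hYe⟩ := apex h hq0 hq1 hε0 hε1 hω0 hω1 E hp
  obtain ⟨p0, p1, -, -⟩ := E.L p hp
  have hX' := abs_le.1 hX
  have hx' := abs_le.1 hx
  have hy' := abs_le.1 hy
  have hu0 := f.u1_pos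
  have hu1 := f.u1_le
  have hub := f.one_sub
  have hv := f.v_bound
  have hv1 := abs_le.1 hv.1
  have hv2 := abs_le.1 hv.2
  have hu2 := u2_le h hq0 hq1 hε0 hε1 hω0 hω1 E
  have hu2' := abs_le.1 hu2
  have hu22 : f.u2 ^ 2 ≤ (4 * ε + 64 * ω) / 256 := by
    have h1 := f.h2
    have : f.u2 ^ 2 = |f.u2| * |f.u2| := by rw [← sq, sq_abs]
    rw [this]
    have := mul_le_mul hu2 h1 (abs_nonneg _) (by positivity)
    linarith only [this]
  simp only [bk] at hY
  have hb0 := h.b0
  have hlow : Y ≤ s.lo X := by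
    by_contra hcon
    push Not at hcon
    apply hn
    simp only [InI, fk]
    have := h.xl0
    have := h.xl1
    have := h.xr0
    have h2 := h.hi_ge1 X (by linarith only [hq1, hε1, hq2, p0, hX']) (by linarith only [hq1, hε1, hq2, p1, hX']) (by
      have : |p - 20 / 32| ≤ |p - X| + |X - 20 / 32| := abs_sub_le _ _ _
      rw [abs_sub_comm p X] at this
      linarith only [hq1, hε1, hp20, hq2, hX, this])
    exact ⟨by linarith, by linarith only [hq1, hε1, hq2, p1, hX', this], hcon, by linarith only [hY2, h2]⟩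
  have htip := h.lo_tip p hpt X (by linarith only [hq1, hε1, hq2, hX])
  -- the second frame coordinate, precisely
  have hYs := f.Y_sub base x y
  have hell := ell_le h hq0 hq1 hε0 hε1 hω0 hω1 E (x := x) (by linarith only [hq1, hε1, hq2, p0, hx']) (by linarith only [hq1, hε1, hq2, p1, hx'])
  simp only [bk] at hell
  have hell' := abs_le.1 hell
  have hYlow : base + q - (5 * ε + 80 * ω) - (1 - f.u1) ≤ Y := by
    rw [hYe]
    have g1 : q - (5 * ε + 80 * ω) ≤ y - f.ell base x := by linarith only [hy', hell']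
    have g2 : y - f.ell base x ≤ 1 := by linarith only [hq1, hε1, hω1, hq2, hy', hell']
    have g3 : (1 - f.u1) * (y - f.ell base x) ≤ (1 - f.u1) * 1 :=
      mul_le_mul_of_nonneg_left g2 (by linarith only [hu1])
    have g4 : f.u1 * (y - f.ell base x) = (y - f.ell base x) - (1 - f.u1) * (y - f.ell base x) := by
      ring
    linarith only [hy', hYs, hell', g3]
  have hXp : |X - p| ≤ 4 * q ^ 3 + (5 * ε + 80 * ω) + (1 - f.u1) := by
    have g1 : s.lo X ≤ max base (q + 4 * q ^ 3 - |X - p|) := htip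
    rcases le_max_iff.1 (hlow.trans g1) with g2 | g2
    · exfalso; linarith only [hε1, hω1, hq2, hq3, hq30, hub, hu22, hYlow, g2]
    · linarith only [hb0, hYlow, g2]
  have hXp' := abs_le.1 hXp
  have e1 : f.u1 * f.v1 = f.u1 * x - X + f.u2 * (y - f.v2) := by
    rw [hXe]; unfold Fr.X; ring
  have e2 : |f.u2 * (y - f.v2)| ≤ (4 * ε + 64 * ω) * 1 := by
    rw [abs_mul]
    apply mul_le_mul hu2 _ (abs_nonneg _) (by positivity)
    rw [abs_le]; constructor <;> linarith only [hε1, hq2, hy', hv2, hq1]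
  have e2' := abs_le.1 e2
  have e3 : |f.u1 * f.v1| ≤ 4 * q ^ 3 + (5 * ε + 80 * ω) + 2 * (1 - f.u1) + ε
      + (4 * ε + 64 * ω) := by
    rw [e1]
    have g1 : f.u1 * x = x - (1 - f.u1) * x := by ring
    have g2 : 0 ≤ (1 - f.u1) * x := mul_nonneg (by linarith only [hu1]) (by linarith only [hq1, hε1, hq2, p0, hx'])
    have g3 : (1 - f.u1) * x ≤ (1 - f.u1) * 1 := mul_le_mul_of_nonneg_left (by linarith only [hq1, hε1, hq2, p1, hx']) (by linarith only [hu1])
    rw [abs_le]
    constructor <;> linarith only [hx', hXp', e2', g3, hu1, g2]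
  have e4 : |f.v1| ≤ 20 * ε + 200 * ω + 5 * q ^ 3 := by
    rw [abs_mul, abs_of_pos (by linarith only [hq1, hε1, hω1, hq2, hub, hu22] : 0 < f.u1)] at e3
    have g1 : 255 / 256 * |f.v1| ≤ f.u1 * |f.v1| := mul_le_mul_of_nonneg_right hu0 (abs_nonneg _)
    linarith only [hε0, hω0, hq30, hub, hu22, e3, g1]
  refine ⟨e4, ?_⟩
  -- the height
  have hell0 := ell_le h hq0 hq1 hε0 hε1 hω0 hω1 E (x := 0) le_rfl (by norm_num)
  simp only [bk] at hell0
  have f1 : f.v2 = f.ell base 0 - (base + f.u2 * (0 - f.v1)) / f.u1 := by unfold Fr.ell; ring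
  have f2 : |(base + f.u2 * (0 - f.v1)) / f.u1| ≤ 2 * (q ^ 3 + (4 * ε + 64 * ω) * (1 / 64)) := by
    rw [abs_div, abs_of_pos (by linarith only [hq1, hε1, hω1, hq2, hub, hu22] : 0 < f.u1), div_le_iff₀ (by linarith only [hq1, hε1, hω1, hq2, hub, hu22])]
    have g1 : |f.u2 * (0 - f.v1)| ≤ (4 * ε + 64 * ω) * (1 / 64) := by
      rw [abs_mul]
      apply mul_le_mul hu2 _ (abs_nonneg _) (by positivity)
      rw [zero_sub, abs_neg]; exact hv.1
    have g2 : |base + f.u2 * (0 - f.v1)| ≤ q ^ 3 + (4 * ε + 64 * ω) * (1 / 64) := by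
      refine (abs_add_le _ _).trans (add_le_add ?_ g1)
      rw [abs_of_nonneg hb0]; exact h.b1
    have g3 : 0 ≤ q ^ 3 + (4 * ε + 64 * ω) * (1 / 64) := by positivity
    have g4 : 2 * (q ^ 3 + (4 * ε + 64 * ω) * (1 / 64)) * (255 / 256)
        ≤ 2 * (q ^ 3 + (4 * ε + 64 * ω) * (1 / 64)) * f.u1 :=
      mul_le_mul_of_nonneg_left hu0 (by linarith only [hε0, hω0, hq30])
    linarith only [hε0, hω0, hq30, g2, g4]
  rw [f1]
  refine (abs_sub _ _).trans ?_
  linarith only [hε0, hω0, hq30, hell0, f2]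

end

end Pool.Agent.Helper85_Pack
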