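import Pool.Agent.Helper2_Pack.Stmts3

/-!
For modules F1, F2: facts on the shapes.
-/

namespace Pool.Agent.Helper85_Pack

open Pool.Agent.Helper2_Pack

/-! ### `tents`, `cham` -/

theorem tents_le {g c x : ℝ} {L : List (ℝ × ℝ)} (hg : g ≤ c) (h : ∀ d ∈ L, d.2 - |x - d.1| ≤ c) :
    tents g L x ≤ c := by
  induction L with
  | nil => simpa [tents] using hg
  | cons d L ih =>
    have h1 : tents g (d :: L) x = max (d.2 - |x - d.1|) (tents g L x) := rfl
    rw [h1]
    exact max_le (h d (by simp)) (ih fun d' hd' => h d' (by simp [hd']))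

theorem le_tents (g x : ℝ) (L : List (ℝ × ℝ)) : g ≤ tents g L x := by
  induction L with
  | nil => simp [tents]
  | cons d L ih =>
    have h1 : tents g (d :: L) x = max (d.2 - |x - d.1|) (tents g L x) := rfl
    rw [h1]
    exact ih.trans (le_max_right _ _)

theorem tent_le_tents (g x : ℝ) {L : List (ℝ × ℝ)} {d : ℝ × ℝ} (hd : d ∈ L) :
    d.2 - |x - d.1| ≤ tents g L x := by
  induction L with
  | nil => simp at hd
  | cons d' L ih =>
    have h1 : tents g (d' :: L) x = max (d'.2 - |x - d'.1|) (tents g L x) := rfl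
    rw [h1]
    rcases List.mem_cons.1 hd with h | h
    · rw [h]; exact le_max_left _ _
    · exact (ih h).trans (le_max_right _ _)

theorem cham_nonneg (q xl x : ℝ) : 0 ≤ cham q xl x := le_max_left _ _

theorem cham_le {q xl x : ℝ} (hq : 0 < q) (hx : xl ≤ x) : cham q xl x ≤ 8 * q ^ 3 := by
  unfold cham
  refine max_le (by positivity) (max_le (by linarith) (min_le_left _ _))

theorem cham_eq {q xl x : ℝ} (h1 : xl + 8 * q ^ 3 ≤ x) (h2 : x ≤ 1 - 8 * q ^ 3) :
    cham q xl x = 0 := by
  unfold cham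
  apply max_eq_left
  exact max_le (by linarith) ((min_le_right _ _).trans (by linarith))

/-- the windows in which no shape has a feature -/
def Win (x : ℝ) : Prop := (13 / 64 ≤ x ∧ x ≤ 19 / 64) ∨ (45 / 64 ≤ x ∧ x ≤ 51 / 64)

theorem Win.symm {x : ℝ} (h : Win x) : Win (1 - x) := by
  rcases h with h | h
  · right; constructor <;> linarith only [h.1, h.2]
  · left; constructor <;> linarith [h.1, h.2]

/-- facts on a shape -/
structure SF (q : ℝ) (s : Sh) (base : ℝ) (dents tips : List ℝ) : Prop where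
  xl0 : 0 ≤ s.xl
  xl1 : s.xl ≤ q
  xr0 : 1 ≤ s.xr
  xr1 : s.xr ≤ 1 + q
  b0 : 0 ≤ base
  b1 : base ≤ q ^ 3
  lo_le : ∀ x, s.xl ≤ x → x ≤ s.xr → s.lo x ≤ 1 / 64
  hi_ge : ∀ x, s.xl ≤ x → x ≤ s.xr → 1 / 64 ≤ |x - 20 / 32| → 63 / 64 ≤ s.hi x
  hi_ge1 : ∀ x, 1 / 64 ≤ x → x ≤ 63 / 64 → 1 / 64 ≤ |x - 20 / 32| → 1 ≤ s.hi x
  hi_le1 : ∀ x, Win x → s.hi x ≤ 1
  lo_win : ∀ x, Win x → s.lo x = base
  lo_base : ∀ x, 1 / 64 ≤ x → x ≤ 63 / 64 → (∀ p ∈ dents, 1 / 64 ≤ |x - p|) → s.lo x ≤ base
  lo_dent : ∀ p ∈ dents, ∀ x, |x - p| ≤ q / 2 → q - |x - p| ≤ s.lo x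
  lo_tip : ∀ p ∈ tips, ∀ x, |x - p| ≤ 1 / 64 → s.lo x ≤ max base (q + 4 * q ^ 3 - |x - p|)

section

variable {q : ℝ} (hq0 : 0 < q) (hq1 : q ≤ 1 / 2 ^ 20)
include hq0 hq1

theorem q3_le : q ^ 3 ≤ q / 2 ^ 40 := by
  have h1 : q ^ 2 ≤ (1 / 2 ^ 20) ^ 2 := pow_le_pow_left₀ hq0.le hq1 2
  have h2 : q ^ 3 = q * q ^ 2 := by ring
  rw [h2]
  have := mul_le_mul_of_nonneg_left h1 hq0.le
  calc q * q ^ 2 ≤ q * (1 / 2 ^ 20) ^ 2 := this
    _ = q / 2 ^ 40 := by ring

theorem q4_le : q ^ 4 ≤ q ^ 3 / 2 ^ 20 := by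
  have h2 : q ^ 4 = q ^ 3 * q := by ring
  rw [h2]
  have := mul_le_mul_of_nonneg_left hq1 (pow_nonneg hq0.le 3)
  calc q ^ 3 * q ≤ q ^ 3 * (1 / 2 ^ 20) := this
    _ = q ^ 3 / 2 ^ 20 := by ring

theorem q2_le : q ^ 2 ≤ q / 2 ^ 20 := by
  have := mul_le_mul_of_nonneg_left hq1 hq0.le
  calc q ^ 2 = q * q := by ring
    _ ≤ q * (1 / 2 ^ 20) := this
    _ = q / 2 ^ 20 := by ring

omit hq0 hq1 in
theorem marks_mem {a : Col} {p : ℕ} (hp : p ∈ a.marks) :
    p = 10 ∨ p = 14 ∨ p = 18 ∨ p = 26 ∨ p = 29 := by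
  cases a <;> simp [Col.marks] at hp <;> omega

theorem tile_SF (t : Tile) :
    SF q (t.sh q) (t.base q) (t.bot.marks.map fun p : ℕ => (p : ℝ) / 32) [14 / 32] := by
  have h3 := q3_le hq0 hq1
  have h30 : 0 < q ^ 3 := by positivity
  have hsm : q ≤ 1 / 1048576 := by norm_num at hq1 ⊢; exact hq1
  have hxl0 : 0 ≤ t.xl q := by unfold Tile.xl; split_ifs <;> linarith
  have hxl1 : t.xl q ≤ q := by unfold Tile.xl; split_ifs <;> linarith only [h3, h30]
  have hxr0 : 1 ≤ t.xr q := by unfold Tile.xr; split_ifs <;> linarith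
  have hxr1 : t.xr q ≤ 1 + q := by unfold Tile.xr; split_ifs <;> linarith only [h3, h30]
  have hb0 : 0 ≤ t.base q := by unfold Tile.base; split_ifs <;> linarith
  have hb1 : t.base q ≤ q ^ 3 := by unfold Tile.base; split_ifs <;> linarith only [h30]
  have hsgn : |((t.sgn : ℤ) : ℝ)| ≤ 1 := by cases t <;> simp [Tile.sgn]
  -- the dents
  have hd : ∀ d ∈ t.dents q, ∃ p ∈ t.bot.marks, |d.1 - (p : ℝ) / 32| ≤ q ^ 3 ∧
      d.2 ≤ q + 2 * q ^ 3 := by
    intro d hd
    unfold Tile.dents at hd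
    rw [List.mem_map] at hd
    obtain ⟨p, hp, rfl⟩ := hd
    refine ⟨p, hp, ?_⟩
    split_ifs
    · simp only [sub_self, abs_zero]; constructor <;> linarith
    · simp only [add_sub_cancel_left, abs_mul, abs_of_pos h30]
      constructor
      · nlinarith only [h30, hsgn]
      · linarith
    · simp only [sub_self, abs_zero]; constructor <;> linarith
  have hd2 : ∀ p ∈ t.bot.marks, ∃ d ∈ t.dents q, ∀ x : ℝ,
      q - |x - (p : ℝ) / 32| ≤ d.2 - |x - d.1| := by
    intro p hp
    refine ⟨_, List.mem_map_of_mem hp, fun x => ?_⟩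
    split_ifs
    · simp only; linarith
    · simp only
      have h1 : |x - ((p : ℝ) / 32 + t.sgn * q ^ 3)| ≤ |x - (p : ℝ) / 32| + q ^ 3 := by
        have e : x - ((p : ℝ) / 32 + t.sgn * q ^ 3) = (x - (p : ℝ) / 32) - t.sgn * q ^ 3 := by ring
        rw [e]
        refine (abs_sub _ _).trans ?_
        rw [abs_mul, abs_of_pos h30]
        nlinarith only [h30, hsgn]
      linarith only [h1]
    · simp only; linarith
  have hlo : ∀ x, (t.sh q).lo x = max (cham q (t.xl q) x) (tents (t.base q) (t.dents q) x) :=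
    fun x => rfl
  have hhi : ∀ x, (t.sh q).hi x
      = tents 1 (t.top.marks.map fun p : ℕ => ((p : ℝ) / 32, 1 + q)) x - cham q (t.xl q) x :=
    fun x => rfl
  have hbase : ∀ x, 1 / 64 ≤ x → x ≤ 63 / 64 →
      (∀ p ∈ t.bot.marks, 1 / 64 ≤ |x - (p : ℝ) / 32|) → (t.sh q).lo x = t.base q := by
    intro x hx0 hx1 h
    rw [hlo, cham_eq (by linarith) (by linarith)]
    apply le_antisymm
    · apply max_le hb0
      apply tents_le le_rfl
      intro d hdd
      obtain ⟨p, hp, g1, g2⟩ := hd d hdd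
      have g3 := h p hp
      have g4 : |x - (p : ℝ) / 32| ≤ |x - d.1| + |d.1 - (p : ℝ) / 32| := abs_sub_le _ _ _
      linarith
    · exact (le_tents _ _ _).trans (le_max_right _ _)
  have hwin : ∀ x, Win x → ∀ {a : Col}, ∀ p ∈ a.marks, 1 / 64 ≤ |x - (p : ℝ) / 32| := by
    intro x hx a p hp
    rw [le_abs]
    rcases marks_mem hp with rfl | rfl | rfl | rfl | rfl <;> rcases hx with hx | hx <;>
      norm_num <;> first
      | (left; linarith only [hx.1, hx.2]) | (right; linarith only [hx.1, hx.2])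
  refine ⟨hxl0, hxl1, hxr0, hxr1, hb0, hb1, ?_, ?_, ?_, ?_, ?_, ?_, ?_, ?_⟩
  · intro x hx _
    rw [hlo]
    apply max_le ((cham_le hq0 hx).trans (by linarith))
    apply tents_le (by linarith)
    intro d hdd
    obtain ⟨p, -, -, g2⟩ := hd d hdd
    have := abs_nonneg (x - d.1)
    linarith
  · intro x hx _ _
    rw [hhi]
    have := cham_le hq0 hx
    have := le_tents 1 x (t.top.marks.map fun p : ℕ => ((p : ℝ) / 32, 1 + q))
    change t.xl q ≤ x at hx
    have := cham_le hq0 hx
    linarith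
  · intro x hx0 hx1 _
    rw [hhi, cham_eq (by linarith) (by linarith)]
    have := le_tents 1 x (t.top.marks.map fun p : ℕ => ((p : ℝ) / 32, 1 + q))
    linarith only [this]
  · intro x hx
    rw [hhi]
    have h1 := cham_nonneg q (t.xl q) x
    have h2 : tents 1 (t.top.marks.map fun p : ℕ => ((p : ℝ) / 32, 1 + q)) x ≤ 1 := by
      apply tents_le le_rfl
      intro d hdd
      rw [List.mem_map] at hdd
      obtain ⟨p, hp, rfl⟩ := hdd
      have := hwin x hx p hp
      simp only
      linarith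
    linarith
  · intro x hx
    apply hbase x
    · rcases hx with hx | hx <;> linarith only [hx.1]
    · rcases hx with hx | hx <;> linarith only [hx.2]
    · exact fun p hp => hwin x hx p hp
  · intro x hx0 hx1 h
    apply le_of_eq
    apply hbase x hx0 hx1
    intro p hp
    exact h _ (List.mem_map_of_mem hp)
  · intro p hp x _
    rw [List.mem_map] at hp
    obtain ⟨p, hp, rfl⟩ := hp
    obtain ⟨d, hdd, g⟩ := hd2 p hp
    rw [hlo]
    exact (g x).trans ((tent_le_tents _ _ hdd).trans (le_max_right _ _))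
  · intro p hp x hx
    rw [List.mem_singleton] at hp
    subst hp
    rw [abs_le] at hx
    rw [hlo, cham_eq (by linarith [hx.1]) (by linarith [hx.2])]
    apply max_le (hb0.trans (le_max_left _ _))
    apply tents_le (le_max_left _ _)
    intro d hdd
    obtain ⟨p, hp, g1, g2⟩ := hd d hdd
    by_cases h14 : p = 14
    · subst h14
      apply le_trans _ (le_max_right _ _)
      have g4 : |x - ((14 : ℕ) : ℝ) / 32| ≤ |x - d.1| + |d.1 - ((14 : ℕ) : ℝ) / 32| := abs_sub_le _ _ _
      push_cast at g4 g1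
      linarith only [h30, g2, g1, g4]
    · apply le_trans _ (le_max_left _ _)
      have g3 : 1 / 32 ≤ |x - (p : ℝ) / 32| := by
        rw [le_abs]
        rcases marks_mem hp with rfl | rfl | rfl | rfl | rfl
        · left; norm_num; linarith only [hx.1]
        · exact absurd rfl h14
        · right; norm_num; linarith only [hx.2]
        · right; norm_num; linarith only [hx.2]
        · right; norm_num; linarith only [hx.2]
      have g4 : |x - (p : ℝ) / 32| ≤ |x - d.1| + |d.1 - (p : ℝ) / 32| := abs_sub_le _ _ _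
      linarith only [hq1, h3, hb0, g1, g2, g3, g4]

/-! ### Levers -/

omit hq0 hq1 in
theorem sg_abs (σ : Bool) : |((sg σ : ℤ) : ℝ)| = 1 := by
  cases σ <;> simp [sg]

omit hq0 hq1 in
theorem roof_eq (σ : Bool) (x : ℝ) : roof q σ x = q + sg σ * q * (|x - 20 / 32| - 10 / 32) := by
  unfold roof piv; ring

theorem roof_abs (σ : Bool) (x : ℝ) : |roof q σ x - q| = q * |(|x - 20 / 32| - 10 / 32)| := by
  rw [roof_eq, add_sub_cancel_left, abs_mul, abs_mul, sg_abs, abs_of_pos hq0]
  ring

/-- the two centres of the ports -/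
theorem roof_near (σ : Bool) {p x : ℝ} (hp : p = 10 / 32 ∨ p = 30 / 32) :
    |roof q σ x - q| ≤ q * |x - p| := by
  rw [roof_abs hq0 hq1]
  apply mul_le_mul_of_nonneg_left _ hq0.le
  have h1 : |p - 20 / 32| = 10 / 32 := by
    rcases hp with rfl | rfl
    · norm_num
    · norm_num
  rw [← h1]
  have := abs_abs_sub_abs_le_abs_sub (x - 20 / 32) (p - 20 / 32)
  calc |(|x - 20 / 32| - |p - 20 / 32|)| ≤ |(x - 20 / 32) - (p - 20 / 32)| := this
    _ = |x - p| := by congr 1; ring

theorem port_ge (σ : Bool) {p x : ℝ} (hp : p = 10 / 32 ∨ p = 30 / 32) :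
    q - |x - p| ≤ port q σ p x := by
  have h3 := q3_le hq0 hq1
  have h30 : 0 < q ^ 3 := by positivity
  have hsm : q ≤ 1 / 1048576 := by norm_num at hq1 ⊢; exact hq1
  have r0 := roof_near hq0 hq1 σ (x := x) hp
  have r1 := roof_near hq0 hq1 σ (x := p - 3 * q ^ 3) hp
  have r2 := roof_near hq0 hq1 σ (x := p + 3 * q ^ 3) hp
  have e1 : |p - 3 * q ^ 3 - p| = 3 * q ^ 3 := by
    rw [sub_sub_cancel_left, abs_neg, abs_of_pos (by positivity)]
  have e2 : |p + 3 * q ^ 3 - p| = 3 * q ^ 3 := by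
    rw [add_sub_cancel_left, abs_of_pos (by positivity)]
  rw [e1] at r1
  rw [e2] at r2
  rw [abs_le] at r0 r1 r2
  have a0 := abs_nonneg (x - p)
  have a1 := le_abs_self (x - p)
  have a2 := neg_abs_le (x - p)
  unfold port
  refine le_min ?_ (le_min ?_ ?_)
  · nlinarith only [a0, hq1, r0.1]
  · nlinarith only [h30, a2, hq1, r1.1]
  · nlinarith only [h30, a1, hq1, r2.1]

theorem port_le (σ : Bool) {p x : ℝ} (hp : p = 10 / 32 ∨ p = 30 / 32) :
    port q σ p x ≤ q + 4 * q ^ 3 - |x - p| := by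
  have h3 := q3_le hq0 hq1
  have h30 : 0 < q ^ 3 := by positivity
  have hsm : q ≤ 1 / 1048576 := by norm_num at hq1 ⊢; exact hq1
  have r1 := roof_near hq0 hq1 σ (x := p - 3 * q ^ 3) hp
  have r2 := roof_near hq0 hq1 σ (x := p + 3 * q ^ 3) hp
  have e1 : |p - 3 * q ^ 3 - p| = 3 * q ^ 3 := by
    rw [sub_sub_cancel_left, abs_neg, abs_of_pos (by positivity)]
  have e2 : |p + 3 * q ^ 3 - p| = 3 * q ^ 3 := by
    rw [add_sub_cancel_left, abs_of_pos (by positivity)]
  rw [e1] at r1
  rw [e2] at r2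
  rw [abs_le] at r1 r2
  unfold port
  rcases le_total 0 (x - p) with h | h
  · rw [abs_of_nonneg h]
    refine (min_le_right _ _).trans ((min_le_right _ _).trans ?_)
    nlinarith only [h30, hq1, r2.2]
  · rw [abs_of_nonpos h]
    refine (min_le_right _ _).trans ((min_le_left _ _).trans ?_)
    nlinarith only [h30, hq1, r1.2]

theorem piv_bounds (σ : Bool) : 0 ≤ piv q σ ∧ piv q σ ≤ 2 * q := by
  unfold piv
  have h := sg_abs σ
  rcases (abs_eq (by norm_num : (0:ℝ) ≤ 1)).1 h with h1 | h1 <;> rw [h1] <;> constructor <;> linarith only [hq0]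

/-- the dents of a lever -/
noncomputable def levD : Bool → List ℝ
  | true => [10 / 32, 30 / 32]
  | false => [10 / 32, 13 / 32, 26 / 32, 30 / 32]

theorem lever_SF (σ : Bool) : SF q (leverSh q σ) (q ^ 3) (levD σ) [10 / 32, 30 / 32] := by
  have h3 := q3_le hq0 hq1
  have h30 : 0 < q ^ 3 := by positivity
  have hsm : q ≤ 1 / 1048576 := by norm_num at hq1 ⊢; exact hq1
  have hpv := piv_bounds hq0 hq1 σ
  set T : List (ℝ × ℝ) := if σ then [] else [(13 / 32, q + 2 * q ^ 3), (26 / 32, q + 2 * q ^ 3)]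
    with hT
  have hTd : ∀ d ∈ T, (d.1 = 13 / 32 ∨ d.1 = 26 / 32) ∧ d.1 ∈ levD σ ∧ d.2 = q + 2 * q ^ 3 := by
    intro d hd
    rw [hT] at hd
    cases σ
    · simp only [Bool.false_eq_true, if_false, List.mem_cons, List.not_mem_nil, or_false] at hd
      rcases hd with rfl | rfl <;> simp [levD]
    · simp at hd
  have hports : ∀ p : ℝ, p = 10 / 32 ∨ p = 30 / 32 → p ∈ levD σ := by
    intro p hp
    cases σ <;> rcases hp with rfl | rfl <;> simp [levD]
  have hlo : ∀ x, (leverSh q σ).lo x = max (max (cham q 0 x) (tents (q ^ 3) T x))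
    (max (port q σ (10 / 32) x) (port q σ (30 / 32) x)) := fun x => rfl
  have hhi : ∀ x, (leverSh q σ).hi x
      = min (1 - cham q 0 x) (piv q σ + (1 - piv q σ) * |x - 20 / 32| / (2 * q ^ 3)) := fun x => rfl
  have hslit : ∀ x, 1 / 64 ≤ |x - 20 / 32| →
      1 ≤ piv q σ + (1 - piv q σ) * |x - 20 / 32| / (2 * q ^ 3) := by
    intro x hx
    have h1 : 1 ≤ |x - 20 / 32| / (2 * q ^ 3) := by
      rw [le_div_iff₀ (by positivity)]
      linarith
    have h2 : 0 ≤ 1 - piv q σ := by linarith only [hq1, hpv.2]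
    have h4 := mul_le_mul_of_nonneg_left h1 h2
    rw [mul_div_assoc]
    linarith only [h4]
  have hbase : ∀ x, 1 / 64 ≤ x → x ≤ 63 / 64 →
      (∀ p ∈ levD σ, 1 / 64 ≤ |x - p|) → (leverSh q σ).lo x = q ^ 3 := by
    intro x hx0 hx1 h
    rw [hlo, cham_eq (by linarith) (by linarith)]
    apply le_antisymm
    · refine max_le (max_le h30.le ?_) (max_le ?_ ?_)
      · apply tents_le le_rfl
        intro d hdd
        obtain ⟨-, g1, g2⟩ := hTd d hdd
        have := h _ g1
        linarith only [hq1, h3, g2, this]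
      · have g1 := port_le hq0 hq1 σ (x := x) (Or.inl rfl : (10 / 32 : ℝ) = 10 / 32 ∨ _)
        have g2 := h _ (hports _ (Or.inl rfl))
        linarith
      · have g1 := port_le hq0 hq1 σ (x := x) (Or.inr rfl : (30 / 32 : ℝ) = 10 / 32 ∨ _)
        have g2 := h _ (hports _ (Or.inr rfl))
        linarith
    · exact (le_tents _ _ _).trans ((le_max_right _ _).trans (le_max_left _ _))
  have hwin : ∀ x, Win x → ∀ p ∈ levD σ, 1 / 64 ≤ |x - p| := by
    intro x hx p hp
    have hp' : p = 10 / 32 ∨ p = 13 / 32 ∨ p = 26 / 32 ∨ p = 30 / 32 := by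
      cases σ <;> simp only [levD, List.mem_cons, List.not_mem_nil, or_false] at hp <;> tauto
    rw [le_abs]
    rcases hp' with rfl | rfl | rfl | rfl <;> rcases hx with hx | hx <;> first
      | (left; linarith only [hx.1, hx.2]) | (right; linarith only [hx.1, hx.2])
  refine ⟨le_refl _, hq0.le, le_refl _, by change (1 : ℝ) ≤ 1 + q; linarith, h30.le, le_refl _,
    ?_, ?_, ?_, ?_, ?_, ?_, ?_, ?_⟩
  · intro x hx _
    change 0 ≤ x at hx
    rw [hlo]
    refine max_le (max_le ((cham_le hq0 hx).trans (by linarith)) ?_) (max_le ?_ ?_)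
    · apply tents_le (by linarith)
      intro d hdd
      obtain ⟨-, -, g2⟩ := hTd d hdd
      have := abs_nonneg (x - d.1)
      linarith
    · have g1 := port_le hq0 hq1 σ (x := x) (Or.inl rfl : (10 / 32 : ℝ) = 10 / 32 ∨ _)
      have := abs_nonneg (x - 10 / 32)
      linarith
    · have g1 := port_le hq0 hq1 σ (x := x) (Or.inr rfl : (30 / 32 : ℝ) = 10 / 32 ∨ _)
      have := abs_nonneg (x - 30 / 32)
      linarith only [hq1, h3, g1, this]
  · intro x hx _ h
    change 0 ≤ x at hx
    rw [hhi]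
    have := cham_le hq0 hx
    exact le_min (by linarith only [hq1, h3, this]) (by linarith only [hslit x h])
  · intro x hx0 hx1 h
    rw [hhi, cham_eq (by linarith) (by linarith)]
    exact le_min (by linarith) (hslit x h)
  · intro x _
    rw [hhi]
    have := cham_nonneg q 0 x
    exact (min_le_left _ _).trans (by linarith)
  · intro x hx
    apply hbase x
    · rcases hx with hx | hx <;> linarith only [hx.1]
    · rcases hx with hx | hx <;> linarith only [hx.2]
    · exact hwin x hx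
  · intro x hx0 hx1 h
    exact (hbase x hx0 hx1 h).le
  · intro p hp x _
    rw [hlo]
    by_cases hp' : p = 10 / 32 ∨ p = 30 / 32
    · have g := port_ge hq0 hq1 σ (x := x) hp'
      rcases hp' with rfl | rfl
      · exact g.trans ((le_max_left _ _).trans (le_max_right _ _))
      · exact g.trans ((le_max_right _ _).trans (le_max_right _ _))
    · have hd : (p, q + 2 * q ^ 3) ∈ T := by
        rw [hT]
        cases σ
        · simp only [Bool.false_eq_true, if_false, List.mem_cons, Prod.mk.injEq, and_true,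
            List.not_mem_nil, or_false]
          simp only [levD, List.mem_cons, List.not_mem_nil, or_false] at hp
          tauto
        · exfalso
          simp only [levD, List.mem_cons, List.not_mem_nil, or_false] at hp
          exact hp' hp
      have g := tent_le_tents (q ^ 3) x hd
      refine le_trans ?_ ((g.trans (le_max_right (cham q 0 x) _)).trans (le_max_left _ _))
      simp only
      linarith only [h30]
  · intro p hp x hx
    simp only [List.mem_cons, List.not_mem_nil, or_false] at hp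
    rw [abs_le] at hx
    have hxr : 1 / 64 ≤ x ∧ x ≤ 63 / 64 := by
      rcases hp with rfl | rfl <;> constructor <;> linarith only [hx.1, hx.2]
    rw [hlo, cham_eq (by linarith) (by linarith)]
    have hne : ∀ p' : ℝ, p' = 13 / 32 ∨ p' = 26 / 32 → 1 / 64 ≤ |x - p'| := by
      intro p' hp'
      rw [le_abs]
      rcases hp with rfl | rfl <;> rcases hp' with rfl | rfl <;> first
        | (left; linarith only [hx.1, hx.2]) | (right; linarith only [hx.1, hx.2])
    refine max_le (max_le (h30.le.trans (le_max_left _ _)) ?_) (max_le ?_ ?_)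
    · apply tents_le (le_max_left _ _)
      intro d hdd
      obtain ⟨g0, -, g2⟩ := hTd d hdd
      have := hne _ g0
      apply le_trans _ (le_max_left _ _)
      linarith only [hq1, h3, g2, this]
    · have g1 := port_le hq0 hq1 σ (x := x) (Or.inl rfl : (10 / 32 : ℝ) = 10 / 32 ∨ _)
      rcases hp with rfl | rfl
      · exact g1.trans (le_max_right _ _)
      · have : 1 / 64 ≤ |x - 10 / 32| := by rw [le_abs]; left; linarith only [hx.1]
        apply le_trans _ (le_max_left _ _)
        linarith only [hq1, h3, g1, this]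
    · have g1 := port_le hq0 hq1 σ (x := x) (Or.inr rfl : (30 / 32 : ℝ) = 10 / 32 ∨ _)
      rcases hp with rfl | rfl
      · have : 1 / 64 ≤ |x - 30 / 32| := by rw [le_abs]; right; linarith only [hx.2]
        apply le_trans _ (le_max_left _ _)
        linarith only [hq1, h3, g1, this]
      · exact g1.trans (le_max_right _ _)

end

end Pool.Agent.Helper85_Pack
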